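import Mathlib

/-! Dyadic averages and dyadic martingales, without measure theory. -/

open Filter Topology Function

namespace Pool.Agent.Lib.GB86

section
variable {V W : Type*} [AddCommGroup V] [Module ℝ V] [AddCommGroup W] [Module ℝ W]

/-- Average of `f` over the coordinates `N, …, N + k - 1`. -/
noncomputable def av (f : (ℕ → Bool) → V) : ℕ → ℕ → (ℕ → Bool) → V
  | 0, _, ω => f ω
  | k + 1, N, ω => (1 / 2 : ℝ) • (av f k (N + 1) (update ω N false) +
      av f k (N + 1) (update ω N true))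

/-- `f` depends only on the first `N` coordinates. -/
def Dep {A : Type*} (N : ℕ) (f : (ℕ → Bool) → A) : Prop :=
  ∀ ω ω', (∀ i < N, ω i = ω' i) → f ω = f ω'

lemma Dep.mono {A : Type*} {M N : ℕ} {f : (ℕ → Bool) → A} (h : Dep M f) (hMN : M ≤ N) : Dep N f :=
  fun ω ω' hω => h ω ω' fun i hi => hω i (hi.trans_le hMN)

lemma Dep.finite {A : Type*} {N : ℕ} {f : (ℕ → Bool) → A} (h : Dep N f) : (Set.range f).Finite := by
  refine (Set.finite_range fun c : Fin N → Bool =>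
    f fun i => if hi : i < N then c ⟨i, hi⟩ else false).subset ?_
  rintro _ ⟨ω, rfl⟩
  exact ⟨fun i => ω i, h _ _ fun i hi => by simp [hi]⟩

lemma agree_update {N : ℕ} {ω ω' : ℕ → Bool} {c : Bool} (h : ∀ i < N + 1, ω' i = update ω N c i) :
    ∀ i < N, ω' i = ω i := fun i hi => by
  rw [h i (hi.trans N.lt_succ_self), update_of_ne hi.ne]

lemma av_congr {f g : (ℕ → Bool) → V} (k : ℕ) : ∀ (N : ℕ) (ω : ℕ → Bool),
    (∀ ω', (∀ i < N, ω' i = ω i) → f ω' = g ω') → av f k N ω = av g k N ω := by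
  induction k with
  | zero => exact fun N ω h => h ω fun _ _ => rfl
  | succ k ih =>
    intro N ω h
    simp only [av]
    rw [ih _ _ fun ω' h' => h ω' (agree_update h'), ih _ _ fun ω' h' => h ω' (agree_update h')]

lemma av_map (L : V → W) (hL : ∀ u v, L ((1 / 2 : ℝ) • (u + v)) = (1 / 2 : ℝ) • (L u + L v))
    (f : (ℕ → Bool) → V) (k : ℕ) : ∀ (N : ℕ) (ω : ℕ → Bool),
    L (av f k N ω) = av (fun ω' => L (f ω')) k N ω := by
  induction k with
  | zero => exact fun _ _ => rfl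
  | succ k ih => intro N ω; simp only [av]; rw [hL, ih, ih]

lemma av_mem {A : Set V} (hA : Convex ℝ A) {f : (ℕ → Bool) → V} (k : ℕ) :
    ∀ (N : ℕ) (ω : ℕ → Bool), (∀ ω', (∀ i < N, ω' i = ω i) → f ω' ∈ A) → av f k N ω ∈ A := by
  induction k with
  | zero => exact fun N ω h => h ω fun _ _ => rfl
  | succ k ih =>
    intro N ω h
    simp only [av]
    rw [smul_add]
    exact hA (ih _ _ fun ω' h' => h ω' (agree_update h'))
      (ih _ _ fun ω' h' => h ω' (agree_update h')) (by norm_num) (by norm_num) (by norm_num)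

lemma av_const (v : V) (k N : ℕ) (ω : ℕ → Bool) : av (fun _ => v) k N ω = v :=
  av_mem (convex_singleton v) k N ω fun _ _ => rfl

lemma av_add (f g : (ℕ → Bool) → V) (k : ℕ) : ∀ (N : ℕ) (ω : ℕ → Bool),
    av (fun ω' => f ω' + g ω') k N ω = av f k N ω + av g k N ω := by
  induction k with
  | zero => exact fun _ _ => rfl
  | succ k ih => intro N ω; simp only [av]; rw [ih, ih, ← smul_add]; congr 1; abel

lemma av_smul (c : ℝ) (f : (ℕ → Bool) → V) (k N : ℕ) (ω : ℕ → Bool) :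
    av (fun ω' => c • f ω') k N ω = c • av f k N ω :=
  (av_map (fun v => c • v) (fun u v => by rw [smul_comm, smul_add c]) f k N ω).symm

lemma av_sub (f g : (ℕ → Bool) → V) (k N : ℕ) (ω : ℕ → Bool) :
    av (fun ω' => f ω' - g ω') k N ω = av f k N ω - av g k N ω := by
  have h1 := av_add (fun ω' => f ω' - g ω') g k N ω
  simp only [sub_add_cancel] at h1
  exact eq_sub_of_add_eq h1.symm

lemma av_sum {ι : Type*} (s : Finset ι) (f : ι → (ℕ → Bool) → V) (k N : ℕ) (ω : ℕ → Bool) :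
    av (fun ω' => ∑ i ∈ s, f i ω') k N ω = ∑ i ∈ s, av (f i) k N ω := by
  classical
  induction s using Finset.induction_on with
  | empty => simpa using av_const (0 : V) k N ω
  | insert i s hi ih => simp only [Finset.sum_insert hi]; rw [av_add, ih]

lemma av_mono {f g : (ℕ → Bool) → ℝ} (h : ∀ ω, f ω ≤ g ω) (k N : ℕ) (ω : ℕ → Bool) :
    av f k N ω ≤ av g k N ω := by
  have h1 : av (fun ω' => g ω' - f ω') k N ω ∈ Set.Ici (0 : ℝ) :=
    av_mem (convex_Ici 0) k N ω fun ω' _ => sub_nonneg.2 (h ω')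
  rw [av_sub] at h1
  exact sub_nonneg.1 h1

lemma av_tower (f : (ℕ → Bool) → V) (l k : ℕ) : ∀ (N : ℕ) (ω : ℕ → Bool),
    av (fun ω' => av f l (N + k) ω') k N ω = av f (k + l) N ω := by
  induction k with
  | zero => intro N ω; simp [av]
  | succ k ih =>
    intro N ω
    rw [Nat.succ_add]
    simp only [av]
    rw [← ih, ← ih, Nat.add_right_comm N 1 k, Nat.add_assoc]

lemma av_dep {f : (ℕ → Bool) → V} (k : ℕ) : ∀ N : ℕ, Dep (N + k) f → Dep N (av f k N) := by
  induction k with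
  | zero => exact fun N h => h
  | succ k ih =>
    intro N h ω ω' hω
    have h1 := ih (N + 1) (by rwa [Nat.add_right_comm N 1 k])
    have h2 : ∀ c, ∀ i < N + 1, update ω N c i = update ω' N c i := fun c i hi => by
      rcases (Nat.lt_succ_iff.1 hi).eq_or_lt with rfl | h3
      · simp
      · rw [update_of_ne h3.ne, update_of_ne h3.ne, hω i h3]
    simp only [av]
    rw [h1 _ _ (h2 false), h1 _ _ (h2 true)]

lemma av_coord (s : Bool → V) (hs : s false + s true = 0) (m k : ℕ) :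
    ∀ (N : ℕ) (ω : ℕ → Bool), N ≤ m → m < N + k → av (fun ω' => s (ω' m)) k N ω = 0 := by
  induction k with
  | zero => intro N ω h1 h2; omega
  | succ k ih =>
    intro N ω h1 h2
    simp only [av]
    rcases h1.eq_or_lt with rfl | h3
    · have h4 : ∀ c, av (fun ω' => s (ω' N)) k (N + 1) (update ω N c) = s c := fun c =>
        av_mem (convex_singleton (s c)) k _ _ fun ω' h => by
          rw [h N N.lt_succ_self, update_self]; rfl
      rw [h4, h4, hs, smul_zero]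
    · rw [ih _ _ h3 (by omega), ih _ _ h3 (by omega), add_zero, smul_zero]

/-- Dyadic martingales. -/
structure IsMart (F : ℕ → (ℕ → Bool) → V) : Prop where
  dep : ∀ N, Dep N (F N)
  mid : ∀ N ω, F N ω = (1 / 2 : ℝ) • (F (N + 1) (update ω N false) + F (N + 1) (update ω N true))

lemma IsMart.av_eq {F : ℕ → (ℕ → Bool) → V} (h : IsMart F) (k : ℕ) :
    ∀ (N : ℕ) (ω : ℕ → Bool), av (F (N + k)) k N ω = F N ω := by
  induction k with
  | zero => exact fun _ _ => rfl
  | succ k ih =>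
    intro N ω
    simp only [av]
    rw [h.mid N ω, ← ih (N + 1), ← ih (N + 1), Nat.add_right_comm N 1 k, Nat.add_assoc]

lemma IsMart.map {F : ℕ → (ℕ → Bool) → V} (h : IsMart F) (L : V → W)
    (hL : ∀ u v, L ((1 / 2 : ℝ) • (u + v)) = (1 / 2 : ℝ) • (L u + L v)) :
    IsMart fun N ω => L (F N ω) :=
  ⟨fun N ω ω' hω => by simp only [h.dep N ω ω' hω], fun N ω => by rw [h.mid N ω, hL]⟩

/-- Expectation at level `N`. -/
noncomputable def Ex (N : ℕ) (f : (ℕ → Bool) → V) : V := av f N 0 fun _ => false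

lemma IsMart.pull {F : ℕ → (ℕ → Bool) → V} (h : IsMart F) {M N : ℕ} (hMN : M ≤ N)
    (Φ : (ℕ → Bool) → V → W) (hΦ : Dep M Φ)
    (hL : ∀ ω u v, Φ ω ((1 / 2 : ℝ) • (u + v)) = (1 / 2 : ℝ) • (Φ ω u + Φ ω v)) :
    Ex N (fun ω => Φ ω (F N ω)) = Ex M fun ω => Φ ω (F M ω) := by
  obtain ⟨l, rfl⟩ := Nat.exists_eq_add_of_le hMN
  rw [Ex, ← av_tower, Ex]
  congr 1
  funext ω
  rw [zero_add, ← h.av_eq l M ω, av_map (Φ ω) (hL ω)]
  exact av_congr _ _ _ fun ω' hω => by rw [hΦ ω' ω hω]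

lemma Dep.ex_eq {f : (ℕ → Bool) → V} {M N : ℕ} (h : Dep M f) (hMN : M ≤ N) : Ex N f = Ex M f :=
  IsMart.pull (F := fun _ _ => (0 : ℝ)) ⟨fun _ _ _ _ => rfl, fun _ _ => by simp⟩ hMN
    (fun ω _ => f ω) (fun ω ω' hω => by simp only [h ω ω' hω]) fun ω _ _ => by
      rw [← two_smul ℝ, smul_smul]; norm_num

end

/-- Bounded real dyadic martingales are Cauchy in the mean. -/
lemma IsMart.cauchy {Y : ℕ → (ℕ → Bool) → ℝ} (h : IsMart Y) (R : ℝ) (hR : ∀ N ω, |Y N ω| ≤ R)
    (ε : ℝ) (hε : 0 < ε) : ∃ N0, ∀ M N L, N0 ≤ M → M ≤ N → N ≤ L →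
      Ex L (fun ω => |Y N ω - Y M ω|) ≤ ε := by
  set q : ℕ → ℝ := fun N => Ex N fun ω => Y N ω * Y N ω with hq
  have hsq : ∀ N, Dep N fun ω => Y N ω * Y N ω := fun N ω ω' hω => by
    simp only [h.dep N ω ω' hω]
  have h1 : ∀ M N L, M ≤ N → N ≤ L →
      Ex L (fun ω => (Y N ω - Y M ω) * (Y N ω - Y M ω)) = q N - q M := by
    intro M N L hMN hNL
    have h2 : Ex N (fun ω => Y M ω * Y N ω) = q M :=
      h.pull hMN (fun ω y => Y M ω * y) (fun ω ω' hω => by simp only [h.dep M ω ω' hω])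
        fun ω u v => by simp only [smul_eq_mul]; ring
    have h3 : Dep N fun ω => (Y N ω - Y M ω) * (Y N ω - Y M ω) := fun ω ω' hω => by
      simp only [h.dep N ω ω' hω, (h.dep M).mono hMN ω ω' hω]
    have h4 : (fun ω => (Y N ω - Y M ω) * (Y N ω - Y M ω)) = fun ω =>
        (Y N ω * Y N ω - Y M ω * Y N ω) + (Y M ω * Y M ω - Y M ω * Y N ω) := by
      funext ω; ring
    have h5 := (hsq M).ex_eq hMN
    rw [h3.ex_eq hNL, h4]
    simp only [Ex, hq] at h2 h5 ⊢
    rw [av_add, av_sub, av_sub, h2, h5]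
    ring
  have hmono : Monotone q := fun M N hMN => by
    have h2 := h1 M N N hMN le_rfl
    have h3 : Ex N (fun ω => (Y N ω - Y M ω) * (Y N ω - Y M ω)) ∈ Set.Ici (0 : ℝ) :=
      av_mem (convex_Ici 0) _ _ _ fun ω _ => Set.mem_Ici.2 (mul_self_nonneg _)
    rw [h2] at h3
    exact sub_nonneg.1 h3
  have hbdd : BddAbove (Set.range q) := ⟨R * R, by
    rintro _ ⟨N, rfl⟩
    exact av_mem (convex_Iic (R * R)) _ _ _ fun ω _ => by
      have := hR N ω
      rw [Set.mem_Iic, ← abs_mul_abs_self]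
      exact mul_self_le_mul_self (abs_nonneg _) this⟩
  have hc := (tendsto_atTop_ciSup hmono hbdd).cauchySeq
  obtain ⟨N0, hN0⟩ := Metric.cauchySeq_iff.1 hc (ε * ε) (by positivity)
  refine ⟨N0, fun M N L h0 hMN hNL => ?_⟩
  have h2 := hN0 N (h0.trans hMN) M h0
  rw [Real.dist_eq, ← h1 M N L hMN hNL] at h2
  have h3 : Ex L (fun ω => |Y N ω - Y M ω|) ≤
      Ex L fun ω => (2 * ε)⁻¹ • ((Y N ω - Y M ω) * (Y N ω - Y M ω)) + ε / 2 := by
    refine av_mono (fun ω => ?_) _ _ _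
    rw [smul_eq_mul, ← abs_mul_abs_self, inv_mul_eq_div, div_add' _ _ _ (by positivity),
      le_div_iff₀ (by positivity)]
    nlinarith [sq_nonneg (|Y N ω - Y M ω| - ε)]
  simp only [Ex] at h2 h3 ⊢
  rw [av_add, av_smul, av_const, smul_eq_mul] at h3
  have h4 := (abs_lt.1 h2).2
  have h5 : (2 * ε)⁻¹ * (ε * ε) = ε / 2 := by field_simp
  have h6 := mul_le_mul_of_nonneg_left h4.le (by positivity : 0 ≤ (2 * ε)⁻¹)
  linarith

end Pool.Agent.Lib.GB86
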