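import Pool.Agent.Lib.GB86.Glue

/-! The code trick: a quotient of the operator algebra onto the space of summable sequences. -/

open Filter Topology RCLike Finset

namespace Pool.Agent.Lib.GB86

variable {K : Type} [RCLike K] {X : Type} [NormedAddCommGroup X] [NormedSpace K X]
variable {P : ℕ → X →L[K] X} {b : ℕ → ℕ} {C : ℝ}

lemma Sub.lam_mu (h : Sub P b C) (N : ℕ) (k : ℕ → ℕ) (hk : ∀ i j, i < j → j < 3 * N → k i < k j)
    (hb : ∀ i < 3 * N, ∀ j < 3 * N, b (k i) = b (k j)) (D : ℝ) (hD : 0 ≤ D) (u : ℕ → X)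
    (hu : ∀ n < N, P (k n) (u n) = u n ∧ ‖u n‖ ≤ D) (z : X) :
    (∑ m ∈ Ico N (3 * N), ‖P (k m) z‖) * ‖∑ n ∈ range N, u n‖ ≤ 3 * N * (C * (D * ‖z‖)) := by
  have h1 : ∀ n ∈ range N, ∑ m ∈ Ico N (3 * N), ‖P (k m) z‖ =
      ∑ d ∈ (range (3 * N)).filter (fun d => n + d ∈ Ico N (3 * N)), ‖P (k (n + d)) z‖ := by
    intro n hn
    symm
    rw [mem_range] at hn
    refine sum_bij (fun d _ => n + d) (fun d hd => (mem_filter.1 hd).2)
      (fun d _ d' _ hd => by simpa using hd) (fun m hm => ⟨m - n, ?_, ?_⟩) fun _ _ => rfl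
    · rw [mem_Ico] at hm
      rw [mem_filter, mem_range, mem_Ico]
      omega
    · rw [mem_Ico] at hm
      show n + (m - n) = m
      omega
  have h2 : (((∑ m ∈ Ico N (3 * N), ‖P (k m) z‖ : ℝ) : K)) • ∑ n ∈ range N, u n =
      ∑ d ∈ range (3 * N), ∑ n ∈ (range N).filter (fun n => n + d ∈ Ico N (3 * N)),
        ((‖P (k (n + d)) z‖ : ℝ) : K) • u n := by
    simp only [sum_filter]
    rw [sum_comm, smul_sum]
    refine sum_congr rfl fun n hn => ?_
    rw [h1 n hn, ← sum_filter, ← sum_smul, ofReal_sum]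
  have h3 : ∀ d ∈ range (3 * N), ‖∑ n ∈ (range N).filter (fun n => n + d ∈ Ico N (3 * N)),
      ((‖P (k (n + d)) z‖ : ℝ) : K) • u n‖ ≤ C * (D * ‖z‖) := by
    intro d _
    have hm : ∀ n ∈ (range N).filter (fun n => n + d ∈ Ico N (3 * N)), n < N ∧ n + d < 3 * N :=
      fun n hn => ⟨mem_range.1 (mem_filter.1 hn).1, (mem_Ico.1 (mem_filter.1 hn).2).2⟩
    have h4 := h.dom ((D : K) • z) ((range N).filter (fun n => n + d ∈ Ico N (3 * N)))
      (fun n => k (n + d)) k (fun n => ((‖P (k (n + d)) z‖ : ℝ) : K) • u n)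
      (fun a _ c hc hac => hk _ _ (by omega) (hm c hc).2)
      (fun a _ c hc hac => hk _ _ hac (by have := (hm c hc).2; omega)) fun n hn =>
      ⟨hb _ (hm n hn).2 _ (by have := (hm n hn).2; omega), by rw [map_smul, (hu n (hm n hn).1).1],
        by
        rw [map_smul, norm_smul, norm_smul, norm_ofReal, norm_ofReal, abs_of_nonneg hD, mul_comm D,
          abs_norm]
        exact mul_le_mul_of_nonneg_left (hu n (hm n hn).1).2 (norm_nonneg _)⟩
    rwa [norm_smul, norm_ofReal, abs_of_nonneg hD] at h4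
  calc _ = ‖(((∑ m ∈ Ico N (3 * N), ‖P (k m) z‖ : ℝ) : K)) • ∑ n ∈ range N, u n‖ := by
        rw [norm_smul, norm_ofReal, abs_of_nonneg (sum_nonneg fun _ _ => norm_nonneg _)]
    _ ≤ ∑ d ∈ range (3 * N), C * (D * ‖z‖) := by
        rw [h2]; exact (norm_sum_le _ _).trans (sum_le_sum h3)
    _ = _ := by simp

lemma Sub.sum_norm_le (h : Sub P b C) (N : ℕ) (k : ℕ → ℕ)
    (hk : ∀ i j, i < j → j < 3 * N → k i < k j)
    (hb : ∀ i < 3 * N, ∀ j < 3 * N, b (k i) = b (k j)) (D : ℝ) (hD : 0 ≤ D) (u : ℕ → X)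
    (hu : ∀ n < N, P (k n) (u n) = u n ∧ ‖u n‖ ≤ D) (T : X →L[K] X) :
    ∑ m ∈ Ico N (3 * N), ‖P (k m) (T (∑ n ∈ range N, u n))‖ ≤ 3 * N * (C * (D * ‖T‖)) := by
  have hC := h.nonneg
  have h1 := h.lam_mu N k hk hb D hD u hu (T (∑ n ∈ range N, u n))
  by_cases h0 : ∑ n ∈ range N, u n = 0
  · simp only [h0, map_zero, norm_zero, sum_const_zero]
    positivity
  · refine le_of_mul_le_mul_right (h1.trans ?_) (norm_pos_iff.2 h0)
    calc 3 * N * (C * (D * ‖T (∑ n ∈ range N, u n)‖))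
        ≤ 3 * N * (C * (D * (‖T‖ * ‖∑ n ∈ range N, u n‖))) := by
          gcongr; exact T.le_opNorm _
      _ = _ := by ring

lemma sg_symmDiff (a c : Finset ℕ) (m : ℕ) : sg (symmDiff a c) m = sg a m * sg c m := by
  by_cases ha : m ∈ a <;> by_cases hc : m ∈ c <;> simp [sg, mem_symmDiff, ha, hc]

lemma abs_sg (a : Finset ℕ) (m : ℕ) : |sg a m| = 1 := by
  by_cases ha : m ∈ a <;> simp [sg, ha]

lemma Sub.code (h : Sub P b C) (N : ℕ) (k : ℕ → ℕ) (hk : ∀ i j, i < j → j < 3 * N → k i < k j)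
    (hb : ∀ i < 3 * N, ∀ j < 3 * N, b (k i) = b (k j)) (y : ℕ → StrongDual K X)
    (hy : ∀ m x, ‖y m x‖ ≤ ‖P m x‖) (D : ℝ) (hD : 0 ≤ D) (e : ℕ → Finset ℕ → X)
    (he : ∀ n < N, ∀ a, P (k n) (e n a) = e n a ∧ ‖e n a‖ ≤ D) (T : X →L[K] X) :
    ∑ n ∈ range N, ∑ m ∈ Ico N (3 * N),
      |∑ a ∈ (range (3 * N)).powerset, sg a m * re (y (k m) (T (e n a)))| ≤
      2 ^ (3 * N) * (3 * N * (C * (D * ‖T‖))) := by
  set τ : ℕ → ℕ → ℝ := fun n m =>
    ∑ a ∈ (range (3 * N)).powerset, sg a m * re (y (k m) (T (e n a))) with hτ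
  set ε : ℕ → Finset ℕ := fun n => (range (3 * N)).filter fun m => τ n m < 0 with hε
  have h1 : ∀ n, ∀ m ∈ Ico N (3 * N), |τ n m| =
      ∑ c ∈ (range (3 * N)).powerset, sg c m * re (y (k m) (T (e n (symmDiff c (ε n))))) := by
    intro n m hm
    have h2 : |τ n m| = sg (ε n) m * τ n m := by
      have hm' : m ∈ range (3 * N) := mem_range.2 (mem_Ico.1 hm).2
      by_cases h3 : τ n m < 0
      · rw [sg, if_pos (mem_filter.2 ⟨hm', h3⟩), abs_of_neg h3, neg_one_mul]
      · have h4 : m ∉ ε n := fun h4 => h3 (mem_filter.1 h4).2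
        rw [sg, if_neg h4, abs_of_nonneg (not_lt.1 h3), one_mul]
    have h4 : ∀ a ∈ (range (3 * N)).powerset, symmDiff a (ε n) ∈ (range (3 * N)).powerset := by
      intro a ha
      rw [mem_powerset] at ha ⊢
      exact symmDiff_subset_union.trans (union_subset ha (filter_subset _ _))
    rw [h2, hτ, mul_sum]
    refine sum_nbij' (fun a => symmDiff a (ε n)) (fun a => symmDiff a (ε n)) h4 h4
      (fun a _ => symmDiff_symmDiff_cancel_right _ _)
      (fun a _ => symmDiff_symmDiff_cancel_right _ _) fun a _ => ?_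
    rw [symmDiff_symmDiff_cancel_right, sg_symmDiff]
    ring
  calc ∑ n ∈ range N, ∑ m ∈ Ico N (3 * N), |τ n m|
      = ∑ n ∈ range N, ∑ c ∈ (range (3 * N)).powerset, ∑ m ∈ Ico N (3 * N),
          sg c m * re (y (k m) (T (e n (symmDiff c (ε n))))) :=
        sum_congr rfl fun n _ => by rw [sum_congr rfl (h1 n), sum_comm]
    _ = ∑ c ∈ (range (3 * N)).powerset, ∑ m ∈ Ico N (3 * N),
          sg c m * re (y (k m) (T (∑ n ∈ range N, e n (symmDiff c (ε n))))) := by
        rw [sum_comm]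
        refine sum_congr rfl fun c _ => ?_
        rw [sum_comm]
        refine sum_congr rfl fun m _ => ?_
        rw [map_sum, map_sum, map_sum, mul_sum]
    _ ≤ ∑ c ∈ (range (3 * N)).powerset, 3 * N * (C * (D * ‖T‖)) := by
        refine sum_le_sum fun c _ => le_trans (sum_le_sum fun m _ => ?_)
          (h.sum_norm_le N k hk hb D hD (fun n => e n (symmDiff c (ε n)))
            (fun n hn => he n hn _) T)
        refine (le_abs_self _).trans ?_
        rw [abs_mul, abs_sg, one_mul]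
        exact (abs_re_le_norm _).trans (hy _ _)
    _ = _ := by simp

lemma Sub.not_grothendieck_of_shat [CompleteSpace X] (h : Sub P b C)
    (hsum : ∀ x, Summable fun k => P k x) (w : ℕ → X)
    (y : ℕ → StrongDual K X) (hw : ∀ k, P k (w k) = w k) (hw1 : ∀ k, ‖w k‖ ≤ 1)
    (hy : ∀ k z, ‖y k z‖ ≤ ‖P k z‖) (hyw : ∀ k, y k (w k) = 1) (D δ : ℝ) (hD : 0 ≤ D) (hδ : 0 < δ)
    (N : ℕ → ℕ) (hN : StrictMono N) (k : ℕ → ℕ → ℕ)
    (hk : ∀ n i j, i < j → j < 3 * N n → k n i < k n j)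
    (hb : ∀ n, ∀ i < 3 * N n, ∀ j < 3 * N n, b (k n i) = b (k n j))
    (hkk : ∀ n n', n < n' → ∀ i < 3 * N n, ∀ j < 3 * N n', k n i < k n' j)
    (hS : ∀ n, ∀ i < 3 * N n, Shat (P (k n i)) D δ (3 * N n)) :
    ¬ IsGrothendieck K (X →L[K] X) := by
  choose! g e hg he hge using hS
  have hC := h.nonneg
  have hU : (hyperfilter ℕ : Filter ℕ) ≤ atTop := Nat.cofinite_eq_atTop ▸ hyperfilter_le_cofinite
  have hlex : ∀ n n', ∀ i < 3 * N n, ∀ j < 3 * N n', k n i ≤ k n' j →
      n < n' ∨ (n = n' ∧ i ≤ j) := by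
    intro n n' i hi j hj hij
    rcases lt_trichotomy n n' with h1 | rfl | h1
    · exact Or.inl h1
    · exact Or.inr ⟨rfl, not_lt.1 fun h2 => absurd (hk n j i h2 hi) (not_lt.2 hij)⟩
    · exact absurd (hkk n' n h1 j hj i hi) (not_lt.2 hij)
  choose T hT hTe using fun j => h.glue hsum (ι := {p : ℕ × ℕ // p.2 < N p.1 ∧ j < N p.1})
    (fun p => k p.1.1 p.1.2) (fun p => k p.1.1 (N p.1.1 + p.1.2 + j)) (by
      rintro ⟨⟨n, i⟩, h1, h2⟩ ⟨⟨n', i'⟩, h3, h4⟩ h5
      simp only at h1 h2 h3 h4 h5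
      have h6 := hlex n n' i (by omega) i' (by omega) h5.le
      have h7 := hlex n' n i' (by omega) i (by omega) h5.ge
      exact Subtype.ext (Prod.ext (by simp only; omega) (by simp only; omega))) (by
      rintro ⟨⟨n, i⟩, h1, h2⟩ ⟨⟨n', i'⟩, h3, h4⟩ h5
      simp only at h1 h2 h3 h4 h5 ⊢
      rcases hlex n n' i (by omega) i' (by omega) h5.le with h6 | ⟨rfl, h6⟩
      · exact hkk n n' h6 _ (by omega) _ (by omega)
      · have h7 : i ≠ i' := fun h7 => by rw [h7] at h5; exact lt_irrefl _ h5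
        exact hk n _ _ (by omega) (by omega))
    (fun p => hb _ _ (by have := p.2; omega) _ (by have := p.2; omega))
    (fun p => g p.1.1 p.1.2 (N p.1.1 + p.1.2 + j))
    (fun p => hg _ _ (by have := p.2; omega) _) (fun p => w (k p.1.1 (N p.1.1 + p.1.2 + j)))
    (fun p => hw _) fun p => hw1 _
  set c : ℕ → ℝ := fun n => ((N n : ℝ) * 2 ^ (3 * N n))⁻¹ with hc
  have hc0 : ∀ n, 0 ≤ c n := fun n => by positivity
  set Φ : ℕ → ℕ → StrongDual K (X →L[K] X) := fun i n => ((c n : ℝ) : K) •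
    ∑ r ∈ range (N n), ∑ a ∈ (range (3 * N n)).powerset, ((sg a (N n + r + i) : ℝ) : K) •
      (y (k n (N n + r + i))).comp (ContinuousLinearMap.apply K X (e n r a)) with hΦ
  have hΦr : ∀ i n S, re (Φ i n S) = c n * ∑ r ∈ range (N n), ∑ a ∈ (range (3 * N n)).powerset,
      sg a (N n + r + i) * re (y (k n (N n + r + i)) (S (e n r a))) := by
    intro i n S
    simp [hΦ]
  have hkey : ∀ n S, ∑ i ∈ range (N n), |re (Φ i n S)| ≤ 3 * (C * (D * ‖S‖)) := by
    intro n S
    rcases Nat.eq_zero_or_pos (N n) with h0 | hN0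
    · simp only [h0, range_zero, sum_empty]; positivity
    have hN' : (0 : ℝ) < N n := by exact_mod_cast hN0
    calc ∑ i ∈ range (N n), |re (Φ i n S)|
        ≤ ∑ i ∈ range (N n), c n * ∑ r ∈ range (N n), |∑ a ∈ (range (3 * N n)).powerset,
            sg a (N n + r + i) * re (y (k n (N n + r + i)) (S (e n r a)))| := by
          refine sum_le_sum fun i _ => ?_
          rw [hΦr, abs_mul, abs_of_nonneg (hc0 n)]
          exact mul_le_mul_of_nonneg_left (abs_sum_le_sum_abs _ _) (hc0 n)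
      _ ≤ c n * ∑ r ∈ range (N n), ∑ m ∈ Ico (N n) (3 * N n),
            |∑ a ∈ (range (3 * N n)).powerset, sg a m * re (y (k n m) (S (e n r a)))| := by
          rw [← mul_sum, sum_comm]
          refine mul_le_mul_of_nonneg_left (sum_le_sum fun r hr => ?_) (hc0 n)
          rw [mem_range] at hr
          rw [range_eq_Ico, sum_Ico_add (fun m => |∑ a ∈ (range (3 * N n)).powerset,
            sg a m * re (y (k n m) (S (e n r a)))|) 0 (N n) (N n + r)]
          exact sum_le_sum_of_subset_of_nonneg (Ico_subset_Ico (by omega) (by omega))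
            fun _ _ _ => abs_nonneg _
      _ ≤ c n * (2 ^ (3 * N n) * (3 * N n * (C * (D * ‖S‖)))) :=
          mul_le_mul_of_nonneg_left (h.code (N n) (k n) (hk n) (hb n) y hy D hD (e n)
            (fun r hr => he n r (by omega)) S) (hc0 n)
      _ = _ := by
          simp only [hc]
          field_simp
  choose φ hφ hφl using fun i => exists_ulim (hyperfilter ℕ)
    (fun n => if i < N n then Φ i n else 0) (3 * (C * D)) fun n => by
      split_ifs with hi
      · refine norm_le_of_re _ _ fun S hS => (le_abs_self _).trans ?_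
        refine ((single_le_sum (f := fun i => |re (Φ i n S)|) (fun _ _ => abs_nonneg _)
          (mem_range.2 hi)).trans (hkey n S)).trans ?_
        calc 3 * (C * (D * ‖S‖)) ≤ 3 * (C * (D * 1)) := by gcongr
          _ = _ := by ring
      · rw [norm_zero]; positivity
  have hev : ∀ i, ∀ᶠ n in (hyperfilter ℕ : Filter ℕ), i < N n := fun i =>
    (hN.tendsto_atTop.eventually (eventually_gt_atTop i)).filter_mono hU
  have hφr : ∀ i S, Tendsto (fun n => re (Φ i n S)) (hyperfilter ℕ) (𝓝 (re (φ i S))) := by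
    intro i S
    refine ((continuous_re.tendsto _).comp (hφl i S)).congr' ?_
    filter_upwards [hev i] with n hn
    simp [hn]
  have hsum' : ∀ S I, ∑ i ∈ range I, |re (φ i S)| ≤ 3 * (C * (D * ‖S‖)) := by
    intro S I
    refine le_of_tendsto (tendsto_finsetSum (range I) fun i _ => (hφr i S).abs) ?_
    filter_upwards [hev I] with n hn
    exact (sum_le_sum_of_subset_of_nonneg (range_subset_range.2 hn.le)
      fun _ _ _ => abs_nonneg _).trans (hkey n S)
  have hTy : ∀ i j n r a, r < N n → j < N n → y (k n (N n + r + i)) (T j (e n r a)) =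
      g n r (N n + r + j) (e n r a) * y (k n (N n + r + i)) (w (k n (N n + r + j))) := by
    intro i j n r a hr hj
    rw [hTe j ⟨(n, r), hr, hj⟩ _ (he n r (by omega) a).1, map_smul, smul_eq_mul]
  have hoff : ∀ i j, i ≠ j → re (φ i (T j)) = 0 := by
    intro i j hij
    refine tendsto_nhds_unique (hφr i (T j)) (tendsto_const_nhds.congr' ?_)
    filter_upwards [hev i, hev j] with n hi hj
    rw [hΦr, sum_eq_zero, mul_zero]
    refine fun r hr => sum_eq_zero fun a _ => ?_
    rw [mem_range] at hr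
    have hne : k n (N n + r + i) ≠ k n (N n + r + j) := fun h1 => by
      have h2 := hlex n n _ (by omega) _ (by omega) h1.le
      have h3 := hlex n n _ (by omega) _ (by omega) h1.ge
      omega
    rw [hTy _ _ _ _ _ hr hj, h.apply_eq_zero (hy _) hne (hw _), mul_zero, map_zero, mul_zero]
  have hdiag : ∀ i, δ ≤ re (φ i (T i)) := by
    intro i
    refine ge_of_tendsto (hφr i (T i)) ?_
    filter_upwards [hev i] with n hn
    have hN' : (0 : ℝ) < N n := by exact_mod_cast (Nat.zero_le i).trans_lt hn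
    calc δ = c n * ∑ r ∈ range (N n), ∑ a ∈ (range (3 * N n)).powerset, δ := by
          simp only [hc, sum_const, card_powerset, card_range, nsmul_eq_mul]
          push_cast
          field_simp
      _ ≤ _ := by
          rw [hΦr]
          refine mul_le_mul_of_nonneg_left (sum_le_sum fun r hr => sum_le_sum fun a _ => ?_)
            (hc0 n)
          rw [mem_range] at hr
          rw [hTy _ _ _ _ _ hr hn, hyw, mul_one]
          exact hge n r (by omega) a _ (by omega)
  exact not_grothendieck_of_l1 φ T C δ hδ hT (fun S => ⟨_, hsum' S⟩) hoff hdiag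

lemma Sub.not_grothendieck_of_not_summable [CompleteSpace X] (h : Sub P b C) (x : X)
    (hx : ¬ Summable fun k => P k x) : ¬ IsGrothendieck K (X →L[K] X) := by
  obtain ⟨ε, hε, hs⟩ : ∃ ε > (0 : ℝ), ∀ s : Finset ℕ, ∃ t, Disjoint t s ∧ ε ≤ ‖∑ i ∈ t, P i x‖ := by
    by_contra h1
    refine hx (summable_iff_vanishing_norm.2 fun ε hε => ?_)
    by_contra h2
    refine h1 ⟨ε, hε, fun s => ?_⟩
    by_contra h3
    exact h2 ⟨s, fun t ht => not_le.1 fun h4 => h3 ⟨t, ht, h4⟩⟩
  obtain ⟨t, ht, hd⟩ := exists_seq_of_forall_finset_exists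
    (fun t : Finset ℕ => ε ≤ ‖∑ i ∈ t, P i x‖) (fun t t' => Disjoint t' t) fun s _ => by
      obtain ⟨t, h1, h2⟩ := hs (s.sup id)
      exact ⟨t, h2, fun u hu => h1.mono_right (le_sup (f := id) hu)⟩
  have hd' : ∀ m n, m ≠ n → Disjoint (t m) (t n) := fun m n hmn => by
    rcases lt_or_gt_of_ne hmn with h1 | h1
    exacts [(hd m n h1).symm, hd n m h1]
  set z : ℕ → X := fun n => ∑ i ∈ t n, P i x with hz
  set R : ℕ → X →L[K] X := fun n => ∑ i ∈ t n, P i with hR
  have hRa : ∀ n v, R n v = ∑ i ∈ t n, P i v := fun n v => by simp [hR]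
  have hRn : ∀ n v, ‖R n v‖ ≤ C * ‖v‖ := fun n v => by
    rw [hRa]
    exact h.dom v _ id id (fun i => P i v) (strictMono_id.strictMonoOn _)
      (strictMono_id.strictMonoOn _) fun i _ => ⟨rfl, h.idem i v, le_rfl⟩
  have hR1 : ∀ n, R n (z n) = z n := fun n => by
    rw [hRa]
    refine sum_congr rfl fun i hi => ?_
    rw [map_sum, sum_eq_single i (fun m _ hm => h.orth _ _ x hm.symm) (fun h' => absurd hi h'),
      h.idem]
  have hR0 : ∀ m n, m ≠ n → R m (z n) = 0 := fun m n hmn => by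
    rw [hRa]
    refine sum_eq_zero fun i hi => ?_
    rw [map_sum]
    exact sum_eq_zero fun j hj => h.orth _ _ x fun hij =>
      disjoint_left.1 (hd' m n hmn) hi (hij ▸ hj)
  choose g hg hgz using fun n => exists_dual_vector'' K (z n)
  have hC := h.nonneg
  refine not_grothendieck_of_l1 (fun n => (g 0).comp (ContinuousLinearMap.apply K X (z n)))
    (fun j => ((g j).comp (R j)).smulRight (z 0)) (C * ‖z 0‖) (ε * ε) (by positivity)
    (fun j => ?_) (fun S => ⟨‖S‖ * (C * ‖x‖), fun I => ?_⟩) (fun i j hij => ?_) fun i => ?_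
  · refine ContinuousLinearMap.opNorm_le_bound _ (by positivity) fun v => ?_
    show ‖g j (R j v) • z 0‖ ≤ _
    rw [norm_smul]
    calc ‖g j (R j v)‖ * ‖z 0‖ ≤ (1 * (C * ‖v‖)) * ‖z 0‖ := by
          gcongr
          exact ((g j).le_opNorm _).trans (by gcongr; exacts [hg j, hRn j v])
      _ = _ := by ring
  · set a := (range I).filter fun n => re (g 0 (S (z n))) < 0 with ha
    have h1 : ‖∑ n ∈ range I, ((sg a n : ℝ) : K) • z n‖ ≤ C * ‖x‖ := by
      have h2 := h.dom' x ((range I).sigma t) (fun p => p.2) (fun p => p.2)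
        (fun p => ((sg a p.1 : ℝ) : K) • P p.2 x) (by
          rintro ⟨m, i⟩ hm ⟨n, j⟩ hn hij
          have h3 : i = j := hij
          subst h3
          have h4 : m = n := by
            by_contra h5
            exact disjoint_left.1 (hd' m n h5) (mem_sigma.1 hm).2 (mem_sigma.1 hn).2
          subst h4
          rfl) (fun _ _ _ _ h => h) fun p _ => ⟨rfl, by rw [map_smul, h.idem], by
          rw [norm_smul, norm_ofReal, abs_sg, one_mul]⟩
      rw [sum_sigma] at h2
      simpa only [hz, smul_sum] using h2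
    calc ∑ n ∈ range I, |re (g 0 (S (z n)))|
        = re (g 0 (S (∑ n ∈ range I, ((sg a n : ℝ) : K) • z n))) := by
          rw [map_sum, map_sum, map_sum]
          refine sum_congr rfl fun n hn => ?_
          rw [map_smul, map_smul, smul_eq_mul, re_ofReal_mul]
          by_cases h3 : re (g 0 (S (z n))) < 0
          · rw [sg, if_pos (mem_filter.2 ⟨hn, h3⟩), abs_of_neg h3, neg_one_mul]
          · have h4 : n ∉ a := fun h4 => h3 (mem_filter.1 h4).2
            rw [sg, if_neg h4, abs_of_nonneg (not_lt.1 h3), one_mul]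
      _ ≤ 1 * (‖S‖ * (C * ‖x‖)) := by
          refine ((le_abs_self _).trans (abs_re_le_norm _)).trans (((g 0).le_opNorm _).trans ?_)
          gcongr
          exacts [hg 0, (S.le_opNorm _).trans (by gcongr)]
      _ = _ := one_mul _
  · show re (g 0 (g j (R j (z i)) • z 0)) = 0
    rw [hR0 j i hij.symm, map_zero, zero_smul, map_zero, map_zero]
  · show ε * ε ≤ re (g 0 (g i (R i (z i)) • z 0))
    rw [hR1, map_smul, hgz, hgz, smul_eq_mul, ← ofReal_mul, ofReal_re]
    exact mul_le_mul (ht i) (ht 0) hε.le (norm_nonneg _)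

theorem not_grothendieck [CompleteSpace X] (hP : IsBlockSubsymmetric P)
    (hN : ∀ k, ¬ IsReflexiveSpace K (LinearMap.range (P k).toLinearMap)) :
    ¬ IsGrothendieck K (X →L[K] X) := by
  intro hE
  obtain ⟨b, C, h, hb⟩ := hP.sub
  have hsum : ∀ x, Summable fun k => P k x := fun x =>
    by_contra fun hx => h.not_grothendieck_of_not_summable x hx hE
  obtain ⟨U, hU⟩ := exists_block_ultrafilter b hb
  obtain ⟨δ, hδ, hS⟩ := h.shat hsum hE hN U
  obtain ⟨p, hp, hr⟩ := exists_seq_of_forall_finset_exists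
    (fun p : ℕ × (ℕ → ℕ) => (∀ i j, i < j → j < 3 * p.1 → p.2 i < p.2 j) ∧
      (∀ i < 3 * p.1, Shat (P (p.2 i)) (C * 2) δ (3 * p.1)) ∧
      ∀ i < 3 * p.1, ∀ j < 3 * p.1, b (p.2 i) = b (p.2 j))
    (fun p q => p.1 < q.1 ∧ ∀ i < 3 * p.1, ∀ j < 3 * q.1, p.2 i < q.2 j) (by
      intro s _
      obtain ⟨k, h1, h2, h3⟩ := hU _ (hS (3 * (s.sup (fun p => p.1) + 1)))
        (s.sup (fun p => (range (3 * p.1)).sup p.2) + 1) (3 * (s.sup (fun p => p.1) + 1))
      refine ⟨(s.sup (fun p => p.1) + 1, k), ⟨h1, fun i hi => (h2 i hi).1, h3⟩, fun p hp =>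
        ⟨Nat.lt_succ_of_le (le_sup (f := fun p : ℕ × (ℕ → ℕ) => p.1) hp), fun i hi j hj => ?_⟩⟩
      exact lt_of_lt_of_le (Nat.lt_succ_of_le ((le_sup (f := p.2) (mem_range.2 hi)).trans
        (le_sup (f := fun p : ℕ × (ℕ → ℕ) => (range (3 * p.1)).sup p.2) hp))) (h2 j hj).2)
  choose w y hw hw1 hy hyw using fun k => h.units k (hN k)
  exact h.not_grothendieck_of_shat hsum w y hw hw1 hy hyw (C * 2) δ (by linarith [h.nonneg]) hδ
    (fun n => (p n).1) (fun m n hmn => (hr m n hmn).1) (fun n => (p n).2) (fun n => (hp n).1)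
    (fun n => (hp n).2.2) (fun m n hmn => (hr m n hmn).2) (fun n => (hp n).2.1) hE

end Pool.Agent.Lib.GB86
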