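import Mathlib

/-! Notions used in the statements on spaces whose operator algebra is a Grothendieck space. -/

open Filter Topology

namespace Pool.Agent.Lib.GB86

/-- Every weak-star convergent sequence in the dual converges weakly. -/
def IsGrothendieck (K E : Type) [RCLike K] [NormedAddCommGroup E] [NormedSpace K E] : Prop :=
  ∀ (φ : ℕ → StrongDual K E) (ψ : StrongDual K E),
    (∀ x : E, Tendsto (fun n => φ n x) atTop (𝓝 (ψ x))) →
    ∀ Θ : StrongDual K (StrongDual K E), Tendsto (fun n => Θ (φ n)) atTop (𝓝 (Θ ψ))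

/-- The canonical map into the bidual is onto. -/
def IsReflexiveSpace (K E : Type) [RCLike K] [SeminormedAddCommGroup E] [NormedSpace K E] : Prop :=
  Function.Surjective (NormedSpace.inclusionInDoubleDual K E)

/-- `P 0, P 1, …` are mutually orthogonal bounded projections. The indices are split into blocks
(the fibres of `b`) of unbounded size, and the norm of a finite sum of vectors taken from the ranges
is controlled, up to a constant, by the norms of the vectors, also after an order preserving change
of the indices that keeps every index in its block. -/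
def IsBlockSubsymmetric {K X : Type} [RCLike K] [NormedAddCommGroup X] [NormedSpace K X]
    (P : ℕ → X →L[K] X) : Prop :=
  (∀ k x, P k (P k x) = P k x) ∧ (∀ k l x, k ≠ l → P k (P l x) = 0) ∧
    ∃ (b : ℕ → ℕ) (C : ℝ), (∀ M, ∃ s : Finset ℕ, M ≤ s.card ∧ ∀ i ∈ s, ∀ j ∈ s, b i = b j) ∧
      ∀ (x : X) (F : Finset ℕ) (α β : ℕ → ℕ) (y : ℕ → X), StrictMonoOn α F → StrictMonoOn β F →
        (∀ i ∈ F, b (α i) = b (β i) ∧ P (β i) (y i) = y i ∧ ‖y i‖ ≤ ‖P (α i) x‖) →
        ‖∑ i ∈ F, y i‖ ≤ C * ‖x‖

end Pool.Agent.Lib.GB86
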