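import Mathlib

/-! The subspace of weakly compact operators. -/

namespace Pool.Agent.Lib.GB86

/-- The weakly compact operators on `X`: a neighbourhood of the origin is mapped into a weakly
compact set. -/
def weaklyCompact (K X : Type) [RCLike K] [NormedAddCommGroup X] [NormedSpace K X] :
    Submodule K (X →L[K] X) where
  carrier := {T | IsCompactOperator fun x => toWeakSpace K X (T x)}
  add_mem' := fun ha hb => IsCompactOperator.add ha hb
  zero_mem' := isCompactOperator_zero
  smul_mem' := fun c _ hT => IsCompactOperator.smul hT c

end Pool.Agent.Lib.GB86
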