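import Pool.Agent.Lib.GB86.Code

/-! The coordinate projections of an `ℓp` sum form a block subsymmetric family. -/

open Filter Topology Finset
open scoped ENNReal

namespace Pool.Agent.Lib.GB86

variable {K : Type} [RCLike K] {Y : Type} [NormedAddCommGroup Y] [NormedSpace K Y]

/-- The coordinate projection of the `ℓp` sum of copies of `Y`. -/
noncomputable def lpProj (K Y : Type) [RCLike K] [NormedAddCommGroup Y] [NormedSpace K Y]
    (p : ℝ≥0∞) [Fact (1 ≤ p)] (k : ℕ) : lp (fun _ : ℕ => Y) p →L[K] lp (fun _ : ℕ => Y) p :=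
  (lp.singleContinuousLinearMap K (fun _ : ℕ => Y) p k).comp (lp.evalCLM K (fun _ : ℕ => Y) p k)

lemma lpProj_apply (p : ℝ≥0∞) [Fact (1 ≤ p)] (k : ℕ) (x : lp (fun _ : ℕ => Y) p) :
    lpProj K Y p k x = lp.single p k (x k) := rfl

theorem lpProj_blockSubsymmetric (p : ℝ≥0∞) [Fact (1 ≤ p)] (hp : p ≠ ∞) :
    IsBlockSubsymmetric (lpProj K Y p) := by
  have hp0 : p ≠ 0 := (zero_lt_one.trans_le (Fact.out : 1 ≤ p)).ne'
  have hq : 0 < p.toReal := ENNReal.toReal_pos hp0 hp
  refine ⟨fun k x => by simp [lpProj_apply], fun k l x hkl => by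
    simp [lpProj_apply, lp.single_apply, Pi.single_eq_of_ne hkl], fun _ => 0, 1,
    fun M => ⟨range M, by simp, fun _ _ _ _ => rfl⟩, fun x F α β y hα hβ hy => ?_⟩
  have h1 : ∑ i ∈ F, y i = ∑ m ∈ F.image β, lp.single p m ((∑ i ∈ F, y i) m) := by
    rw [sum_image hβ.injOn]
    refine sum_congr rfl fun i hi => ?_
    rw [lp.coeFn_sum, Finset.sum_apply, sum_eq_single i _ fun h => absurd hi h]
    · exact (hy i hi).2.1.symm
    · intro j hj hji
      rw [← (hy j hj).2.1, lpProj_apply, lp.single_apply,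
        Pi.single_eq_of_ne fun h => hji (hβ.injOn hj hi h.symm)]
  have h2 : ∀ i ∈ F, ‖(∑ i ∈ F, y i) (β i)‖ ≤ ‖x (α i)‖ := by
    intro i hi
    rw [lp.coeFn_sum, Finset.sum_apply, sum_eq_single i _ fun h => absurd hi h]
    · refine (lp.norm_apply_le_norm hp0 _ _).trans ((hy i hi).2.2.trans ?_)
      rw [lpProj_apply, lp.norm_single (pos_iff_ne_zero.2 hp0)]
    · intro j hj hji
      rw [← (hy j hj).2.1, lpProj_apply, lp.single_apply,
        Pi.single_eq_of_ne fun h => hji (hβ.injOn hj hi h.symm)]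
  rw [one_mul, ← Real.rpow_le_rpow_iff (norm_nonneg _) (norm_nonneg _) hq, h1,
    lp.norm_sum_single hq, sum_image hβ.injOn]
  refine le_trans (sum_le_sum fun i hi => Real.rpow_le_rpow (norm_nonneg _) (h2 i hi) hq.le) ?_
  rw [← sum_image (f := fun m => ‖x m‖ ^ p.toReal) hα.injOn]
  exact lp.sum_rpow_le_norm_rpow hq x _

end Pool.Agent.Lib.GB86
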