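import Mathlib

/-! Infinite Ramsey theorem and the finite-pattern form of Rosenthal's dichotomy. -/

open Filter Topology

namespace Pool.Agent.Lib.GB86

lemma ramsey {κ : Type*} [Finite κ] (M : ℕ) : ∀ (c : (Fin M → ℕ) → κ) (L : Set ℕ), L.Infinite →
    ∃ L' ⊆ L, L'.Infinite ∧ ∃ col, ∀ t : Fin M → ℕ, StrictMono t → (∀ i, t i ∈ L') →
      c t = col := by
  induction M with
  | zero =>
    intro c L hL
    exact ⟨L, le_rfl, hL, c (fun i => i.elim0), fun t _ _ => by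
      rw [Subsingleton.elim t (fun i => i.elim0)]⟩
  | succ M ih =>
    intro c L hL
    have step : ∀ S : {S : Set ℕ // S.Infinite}, ∃ (a : ℕ) (R : {S : Set ℕ // S.Infinite})
        (col : κ), a ∈ S.1 ∧ R.1 ⊆ S.1 ∧ (∀ j ∈ R.1, a < j) ∧
        ∀ t : Fin M → ℕ, StrictMono t → (∀ i, t i ∈ R.1) → c (Fin.cons a t) = col := by
      rintro ⟨S, hS⟩
      obtain ⟨a, ha⟩ := hS.nonempty
      have h1 : (S \ Set.Iic a).Infinite := hS.sdiff (Set.finite_Iic a)
      obtain ⟨R, hR, hRi, col, hcol⟩ := ih (fun t => c (Fin.cons a t)) _ h1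
      exact ⟨a, ⟨R, hRi⟩, col, ha, fun j hj => (hR hj).1, fun j hj => by
        simpa using (hR hj).2, hcol⟩
    choose a R col ha hR hlt hcol using step
    set S : ℕ → {S : Set ℕ // S.Infinite} := fun n => R^[n] ⟨L, hL⟩ with hS
    have hSs : ∀ n, S (n + 1) = R (S n) := fun n => Function.iterate_succ_apply' _ _ _
    have hanti : Antitone fun n => (S n).1 :=
      antitone_nat_of_succ_le fun n => by rw [hSs]; exact hR _
    have hmem : ∀ n m, n < m → a (S m) ∈ (R (S n)).1 := fun n m h => by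
      rw [← hSs]; exact hanti (Nat.succ_le_of_lt h) (ha _)
    have hsm : StrictMono fun n => a (S n) := fun n m h => hlt _ _ (hmem n m h)
    obtain ⟨y, hy⟩ := Finite.exists_infinite_fiber (fun n => col (S n))
    have hy' : ((fun n => col (S n)) ⁻¹' {y}).Infinite := Set.infinite_coe_iff.1 hy
    refine ⟨(fun n => a (S n)) '' ((fun n => col (S n)) ⁻¹' {y}), ?_,
      hy'.image hsm.injective.injOn, y, ?_⟩
    · rintro _ ⟨n, -, rfl⟩
      exact hanti (Nat.zero_le n) (ha _)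
    · intro t ht htm
      obtain ⟨n, hn, hn0⟩ := htm 0
      have hn' : col (S n) = y := hn
      have h1 : t = Fin.cons (a (S n)) (Fin.tail t) := by
        have hn1 : a (S n) = t 0 := hn0
        rw [hn1, Fin.cons_self_tail]
      rw [h1, ← hn']
      refine hcol _ _ (fun i j hij => ht (Fin.succ_lt_succ_iff.2 hij)) fun i => ?_
      obtain ⟨m, -, hm⟩ := htm i.succ
      have hm' : a (S m) = t i.succ := hm
      have hn1 : a (S n) = t 0 := hn0
      have h2 : n < m := hsm.lt_iff_lt.1 (by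
        show a (S n) < a (S m)
        rw [hm', hn1]; exact ht (Fin.succ_pos i))
      have h3 := hmem n m h2
      rw [hm'] at h3
      exact h3

lemma fusion (Q : ℕ → Set ℕ → Prop)
    (hQ : ∀ i L, L.Infinite → ∃ L' ⊆ L, L'.Infinite ∧ Q i L') :
    ∃ φ : ℕ → ℕ, StrictMono φ ∧ ∀ i, ∃ L, Q i L ∧ ∀ᶠ n in atTop, φ n ∈ L := by
  have step : ∀ (i : ℕ) (S : {S : Set ℕ // S.Infinite}), ∃ R : {S : Set ℕ // S.Infinite},
      R.1 ⊆ S.1 ∧ Q i R.1 := by
    rintro i ⟨S, hS⟩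
    obtain ⟨R, h1, h2, h3⟩ := hQ i S hS
    exact ⟨⟨R, h2⟩, h1, h3⟩
  choose R hR hRQ using step
  let S : ℕ → {S : Set ℕ // S.Infinite} := fun n =>
    Nat.rec ⟨Set.univ, Set.infinite_univ⟩ (fun i T => R i T) n
  have hSs : ∀ n, S (n + 1) = R n (S n) := fun n => rfl
  have hanti : Antitone fun n => (S n).1 :=
    antitone_nat_of_succ_le fun n => by rw [hSs]; exact hR _ _
  obtain ⟨φ, hφ, hφS⟩ := extraction_forall_of_frequently (P := fun n k => k ∈ (S n).1)
    fun n => Nat.frequently_atTop_iff_infinite.2 (S n).2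
  refine ⟨φ, hφ, fun i => ⟨(S (i + 1)).1, hRQ i _, ?_⟩⟩
  filter_upwards [eventually_ge_atTop (i + 1)] with n hn
  exact hanti hn (hφS n)

lemma rosenthal {B : Type*} (u : ℕ → B → ℝ) (hb : ∀ x, ∃ R, ∀ j, |u j x| ≤ R) :
    (∃ φ : ℕ → ℕ, StrictMono φ ∧ ∀ x, ∃ c, Tendsto (fun n => u (φ n) x) atTop (𝓝 c)) ∨
    ∃ r1 r2 : ℝ, r1 < r2 ∧ ∀ M, ∃ t : Fin M → ℕ, StrictMono t ∧ ∀ a : Fin M → Bool, ∃ x, ∀ m,
      (a m = true → r2 < u (t m) x) ∧ (a m = false → u (t m) x < r1) := by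
  classical
  refine or_iff_not_imp_right.2 fun h => ?_
  obtain ⟨e, he⟩ := exists_surjective_nat (ℚ × ℚ)
  have key : ∀ (i : ℕ) (L : Set ℕ), L.Infinite → ∃ L' ⊆ L, L'.Infinite ∧
      (((e i).1 : ℝ) < (e i).2 → ∀ x, ¬ ((∃ᶠ j in atTop, j ∈ L' ∧ u j x < (e i).1) ∧
        ∃ᶠ j in atTop, j ∈ L' ∧ ((e i).2 : ℝ) < u j x)) := by
    intro i L hL
    by_cases hlt : ((e i).1 : ℝ) < (e i).2
    · have h1 : ∃ M, ∀ t : Fin M → ℕ, ∃ a : Fin M → Bool, StrictMono t → ∀ x, ¬ ∀ m,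
          (a m = true → ((e i).2 : ℝ) < u (t m) x) ∧ (a m = false → u (t m) x < (e i).1) := by
        by_contra h2
        refine h ⟨_, _, hlt, fun M => ?_⟩
        by_contra h3
        refine h2 ⟨M, fun t => ?_⟩
        by_contra h4
        have h5 : StrictMono t := by
          by_contra h6
          exact h4 ⟨fun _ => true, fun h7 => absurd h7 h6⟩
        refine h3 ⟨t, h5, fun a => ?_⟩
        by_contra h6
        exact h4 ⟨a, fun _ x hx => h6 ⟨x, hx⟩⟩
      obtain ⟨M, hM⟩ := h1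
      choose c hc using hM
      obtain ⟨L', hL', hi, a, ha⟩ := ramsey M c L hL
      refine ⟨L', hL', hi, fun _ x hx => ?_⟩
      obtain ⟨t, ht, htP⟩ := extraction_forall_of_frequently
        (P := fun m k => k ∈ L' ∧ ∀ hm : m < M, (a ⟨m, hm⟩ = true → ((e i).2 : ℝ) < u k x) ∧
          (a ⟨m, hm⟩ = false → u k x < (e i).1)) fun m => by
          by_cases hm : m < M
          · cases hb : a ⟨m, hm⟩
            · exact hx.1.mono fun k hk => ⟨hk.1, fun _ => ⟨fun h => by simp [hb] at h,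
                fun _ => hk.2⟩⟩
            · exact hx.2.mono fun k hk => ⟨hk.1, fun _ => ⟨fun _ => hk.2,
                fun h => by simp [hb] at h⟩⟩
          · exact hx.1.mono fun k hk => ⟨hk.1, fun h => absurd h hm⟩
      have ht' : StrictMono fun m : Fin M => t m := fun m m' hmm => ht hmm
      have h2 := hc (fun m : Fin M => t m) ht' x
      rw [ha _ ht' fun m => (htP m).1] at h2
      exact h2 fun m => (htP m).2 m.2
    · exact ⟨L, le_rfl, hL, fun h => absurd h hlt⟩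
  obtain ⟨φ, hφ, hQ⟩ := fusion _ key
  refine ⟨φ, hφ, fun x => ?_⟩
  obtain ⟨R, hR⟩ := hb x
  refine tendsto_of_no_upcrossings (s := Set.range ((↑) : ℚ → ℝ)) Rat.denseRange_cast ?_
    ⟨R, eventually_map.2 (Eventually.of_forall fun n => (abs_le.1 (hR _)).2)⟩
    ⟨-R, eventually_map.2 (Eventually.of_forall fun n => (abs_le.1 (hR _)).1)⟩
  rintro _ ⟨p, rfl⟩ _ ⟨q, rfl⟩ hpq ⟨h1, h2⟩
  obtain ⟨i, hi⟩ := he (p, q)
  obtain ⟨L, hL, hev⟩ := hQ i
  rw [hi] at hL
  refine hL hpq x ⟨?_, ?_⟩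
  · exact hφ.tendsto_atTop.frequently ((h1.and_eventually hev).mono fun n hn => ⟨hn.2, hn.1⟩)
  · exact hφ.tendsto_atTop.frequently ((h2.and_eventually hev).mono fun n hn => ⟨hn.2, hn.1⟩)

end Pool.Agent.Lib.GB86
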