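import Pool.Agent.Lib.GB86.Tight
import Pool.Agent.Lib.GB86.Rosenthal

/-! Fragmentation: pointwise convergence on a subspace with reflexive quotient. -/

open Filter Topology RCLike

namespace Pool.Agent.Lib.GB86

variable {K : Type} [RCLike K] {E : Type} [NormedAddCommGroup E] [NormedSpace K E]

variable {E' : Type} [NormedAddCommGroup E'] [NormedSpace K E']

/-- Gantmacher's property for a weakly compact map into a quotient. -/
lemma repr_of_weaklyCompact (L : E →L[K] E') (W : Submodule K E')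
    (h : IsCompactOperator fun T : E => toWeakSpace K (E' ⧸ W) (W.mkQ (L T)))
    (Θ : StrongDual K (StrongDual K E)) :
    ∃ t : E', ∀ u : StrongDual K E', (∀ y ∈ W, u y = 0) → Θ (u.comp L) = u t := by
  classical
  have h' : IsCompactOperator ((toWeakSpace K (E' ⧸ W)).toLinearMap.comp
      (W.mkQ.comp L.toLinearMap)) := h
  have hp : 0 < ‖Θ‖ + 1 := by positivity
  obtain ⟨A, hA, hLA⟩ := h'.image_closedBall_subset_compact (‖Θ‖ + 1)
  let Z : Finset (StrongDual K (E' ⧸ W)) × ℕ → Set (WeakSpace K (E' ⧸ W)) := fun p =>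
    {t | ∀ u ∈ p.1, |re (u ((toWeakSpace K (E' ⧸ W)).symm t)) -
      re (Θ ((u.comp W.mkQL).comp L))| ≤ 1 / (p.2 + 1)}
  have hZc : ∀ p, IsClosed (Z p) := fun p => by
    simp only [Z, Set.ofPred_forall]
    exact isClosed_iInter fun u => isClosed_iInter fun _ => isClosed_le
      (((continuous_re.comp (WeakBilin.eval_continuous (topDualPairing K (E' ⧸ W)).flip u)).sub
        continuous_const).abs) continuous_const
  obtain ⟨t, -, ht⟩ := hA.inter_iInter_nonempty Z hZc fun s => by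
    obtain ⟨T, hT, h1⟩ := helly ((((‖Θ‖ + 1)⁻¹ : ℝ) : K) • Θ)
      ((ContinuousLinearMap.opNorm_smul_le _ _).trans (by
        rw [norm_ofReal, abs_of_pos (inv_pos.2 hp), inv_mul_le_iff₀ hp]; linarith))
      ((s.sup fun p => p.1).image fun u => (u.comp W.mkQL).comp L)
      ((‖Θ‖ + 1)⁻¹ * (1 / ((s.sup (fun p => p.2) : ℕ) + 1))) (by positivity)
    refine ⟨_, hLA ⟨((‖Θ‖ + 1 : ℝ) : K) • T, ?_, rfl⟩, Set.mem_iInter₂.2 fun p hp' u hu => ?_⟩
    · rw [mem_closedBall_zero_iff, norm_smul, norm_ofReal, abs_of_pos hp]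
      exact mul_le_of_le_one_right hp.le hT
    · have h2 := h1 _ (Finset.mem_image_of_mem _ (Finset.mem_of_subset (Finset.le_sup (f := fun p => p.1) hp') hu))
      rw [smul_apply, smul_eq_mul, re_ofReal_mul, lt_inv_mul_iff₀ hp, ← abs_of_pos hp, ← abs_mul,
        abs_of_pos hp, mul_sub, ← mul_assoc, mul_inv_cancel₀ hp.ne', one_mul, ← re_ofReal_mul,
        ← smul_eq_mul, ← map_smul] at h2
      refine h2.le.trans (Nat.one_div_le_one_div (Finset.le_sup (f := fun p => p.2) hp'))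
  obtain ⟨T, hT⟩ := W.mkQ_surjective ((toWeakSpace K (E' ⧸ W)).symm t)
  have hre : ∀ u : StrongDual K E', (∀ y ∈ W, u y = 0) → re (Θ (u.comp L)) = re (u T) := by
    intro u hu
    have h2 : (W.liftQL u fun y hy => hu y hy).comp W.mkQL = u := by
      ext x; rfl
    have h3 : |re (u T) - re (Θ (u.comp L))| ≤ 0 :=
      ge_of_tendsto' tendsto_one_div_add_atTop_nhds_zero_nat fun i => by
        have h4 := Set.mem_iInter.1 ht ({W.liftQL u fun y hy => hu y hy}, i) _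
          (Finset.mem_singleton_self _)
        rw [h2, ← hT] at h4
        exact h4
    exact (sub_eq_zero.1 (abs_nonpos_iff.1 h3)).symm
  refine ⟨T, fun u hu => RCLike.ext (hre u hu) ?_⟩
  have h1 := hre ((I : K) • u) fun y hy => by rw [smul_apply, hu y hy, smul_zero]
  rwa [ContinuousLinearMap.smul_comp, map_smul, smul_apply, smul_eq_mul, smul_eq_mul, I_mul_re,
    I_mul_re, neg_inj] at h1

/-- Weak-star limits of the sequence `φ` along free ultrafilters containing `A`. -/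
def Cl (φ : ℕ → StrongDual K E) (A : Set ℕ) : Set (StrongDual K E) :=
  {z | ∃ U : Ultrafilter ℕ, (U : Filter ℕ) ≤ atTop ∧ A ∈ U ∧
    ∀ T, Tendsto (fun n => φ n T) U (𝓝 (z T))}

lemma Cl.mono (φ : ℕ → StrongDual K E) {A A' : Set ℕ} (h : A ⊆ A') : Cl φ A ⊆ Cl φ A' :=
  fun _ ⟨U, h1, h2, h3⟩ => ⟨U, h1, mem_of_superset h2 h, h3⟩

lemma Cl.norm_le {φ : ℕ → StrongDual K E} {C : ℝ} (hφ : ∀ n, ‖φ n‖ ≤ C) {A : Set ℕ}
    {z : StrongDual K E} (hz : z ∈ Cl φ A) : ‖z‖ ≤ C := by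
  obtain ⟨U, -, -, h⟩ := hz
  exact ContinuousLinearMap.opNorm_le_bound _ ((norm_nonneg _).trans (hφ 0)) fun T =>
    le_of_tendsto' (h T).norm fun n =>
      ((φ n).le_opNorm T).trans (mul_le_mul_of_nonneg_right (hφ n) (norm_nonneg T))

lemma escape (L : E →L[K] E') (φ : ℕ → StrongDual K E') (ε : ℝ) (A0 : Set ℕ)
    (h : ∀ A ⊆ A0, A.Infinite → ∃ z ∈ Cl φ A, ∃ z' ∈ Cl φ A, ε < ‖z.comp L - z'.comp L‖)
    (s : Finset (StrongDual K E)) : ∀ A ⊆ A0, A.Infinite → ∃ A' ⊆ A, A'.Infinite ∧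
      ∀ c ∈ s, ∃ T : E, ‖T‖ ≤ 1 ∧ ∀ z ∈ Cl φ A', ε / 2 ≤ ‖z (L T) - c T‖ := by
  classical
  induction s using Finset.induction_on with
  | empty => exact fun A _ hA => ⟨A, le_rfl, hA, by simp⟩
  | insert c s _ ih =>
    intro A hA hAi
    obtain ⟨A1, h1, h1i, h2⟩ := ih A hA hAi
    obtain ⟨z, hz, hzc⟩ : ∃ z ∈ Cl φ A1, ε / 2 < ‖z.comp L - c‖ := by
      obtain ⟨z, hz, z', hz', h3⟩ := h A1 (h1.trans hA) h1i
      by_contra h4
      have h5 : ‖z.comp L - c‖ ≤ ε / 2 := not_lt.1 fun h5 => h4 ⟨z, hz, h5⟩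
      have h6 : ‖z'.comp L - c‖ ≤ ε / 2 := not_lt.1 fun h5 => h4 ⟨z', hz', h5⟩
      rw [norm_sub_rev] at h6
      linarith [norm_sub_le_norm_sub_add_norm_sub (z.comp L) c (z'.comp L)]
    obtain ⟨T, hT, hzT⟩ := (z.comp L - c).exists_lt_apply_of_lt_opNorm hzc
    obtain ⟨U, hU, hAU, hlim⟩ := hz
    have h3 : A1 ∩ {n | ε / 2 < ‖φ n (L T) - c T‖} ∈ U :=
      inter_mem hAU (((hlim (L T)).sub_const (c T)).norm.eventually (lt_mem_nhds hzT))
    refine ⟨A1 ∩ {n | ε / 2 < ‖φ n (L T) - c T‖}, Set.inter_subset_left.trans h1,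
      Nat.frequently_atTop_iff_infinite.1 ((Eventually.frequently h3).filter_mono hU),
      fun c' hc' => ?_⟩
    rcases Finset.mem_insert.1 hc' with rfl | hc'
    · refine ⟨T, hT.le, fun z' ⟨V, _, hV, hl⟩ => ?_⟩
      exact ge_of_tendsto ((hl (L T)).sub_const (c' T)).norm
        (mem_of_superset hV fun n hn => (le_of_lt hn.2 : ε / 2 ≤ ‖φ n (L T) - c' T‖))
    · obtain ⟨T', h4, h5⟩ := h2 c' hc'
      exact ⟨T', h4, fun z' hz' => h5 z' (Cl.mono φ Set.inter_subset_left hz')⟩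

lemma small_diam (L : E →L[K] E') (W : Submodule K E')
    (hW : ∀ Θ : StrongDual K (StrongDual K E), ∃ t : E', ∀ u : StrongDual K E',
      (∀ y ∈ W, u y = 0) → Θ (u.comp L) = u t) (φ : ℕ → StrongDual K E')
    (C : ℝ) (hφ : ∀ n, ‖φ n‖ ≤ C) (hc : ∀ T ∈ W, ∃ c, Tendsto (fun n => φ n T) atTop (𝓝 c))
    (ε : ℝ) (hε : 0 < ε) (A0 : Set ℕ) (hA0 : A0.Infinite) :
    ∃ A ⊆ A0, A.Infinite ∧ ∀ z ∈ Cl φ A, ∀ z' ∈ Cl φ A, ‖z.comp L - z'.comp L‖ ≤ ε := by
  classical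
  by_contra hn
  have h : ∀ A ⊆ A0, A.Infinite → ∃ z ∈ Cl φ A, ∃ z' ∈ Cl φ A, ε < ‖z.comp L - z'.comp L‖ := by
    intro A h1 h2
    by_contra h3
    exact hn ⟨A, h1, h2, fun z hz z' hz' => not_lt.1 fun h4 => h3 ⟨z, hz, z', hz', h4⟩⟩
  have hU : (hyperfilter ℕ : Filter ℕ) ≤ atTop := Nat.cofinite_eq_atTop ▸ hyperfilter_le_cofinite
  let St := Finset (StrongDual K E) × {A : Set ℕ // A ⊆ A0 ∧ A.Infinite}
  have step : ∀ p : St, ∃ (z : StrongDual K E') (q : St), q.1 = insert (z.comp L) p.1 ∧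
      q.2.1 ⊆ p.2.1 ∧ z ∈ Cl φ q.2.1 ∧ ∀ y ∈ Submodule.span K (p.1 : Set (StrongDual K E)),
        ‖y‖ ≤ C * ‖L‖ + ε → ∃ T : E, ‖T‖ ≤ 1 ∧ ∀ z' ∈ Cl φ q.2.1, ε / 4 ≤ ‖z' (L T) - y T‖ := by
    rintro ⟨t, A, hA, hAi⟩
    obtain ⟨s, hs⟩ := finite_net (K := K) (t : Set (StrongDual K E)) t.finite_toSet
      (C * ‖L‖ + ε) (ε / 4) (by positivity)
    obtain ⟨A', h1, h2, h3⟩ := escape L φ ε A0 h s A hA hAi
    obtain ⟨z, hz, -⟩ := h A' (h1.trans hA) h2
    refine ⟨z, (insert (z.comp L) t, ⟨A', h1.trans hA, h2⟩), rfl, h1, hz, fun y hy hyn => ?_⟩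
    obtain ⟨c, hc, h4⟩ := hs y hy hyn
    obtain ⟨T, hT, h5⟩ := h3 c hc
    refine ⟨T, hT, fun z' hz' => ?_⟩
    have h6 : ‖y T - c T‖ ≤ ‖y - c‖ :=
      ((y - c).le_opNorm T).trans (mul_le_of_le_one_right (norm_nonneg _) hT)
    linarith [h5 z' hz', norm_sub_le_norm_sub_add_norm_sub (z' (L T)) (y T) (c T)]
  choose z R hz1 hR hzc hesc using step
  set S : ℕ → St := fun n => R^[n] (∅, ⟨A0, le_rfl, hA0⟩) with hS
  have hSs : ∀ n, S (n + 1) = R (S n) := fun n => Function.iterate_succ_apply' _ _ _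
  have hanti : Antitone fun n => (S n).2.1 :=
    antitone_nat_of_succ_le fun n => by rw [hSs]; exact hR _
  have hmono : Monotone fun n => Submodule.span K ((S n).1 : Set (StrongDual K E)) :=
    monotone_nat_of_le_succ fun n => Submodule.span_mono (by
      rw [hSs, hz1]; exact Finset.coe_subset.2 (Finset.subset_insert _ _))
  obtain ⟨w, hw, hwl⟩ := exists_ulim (hyperfilter ℕ) (fun m => z (S m)) C
    fun m => Cl.norm_le hφ (hzc _)
  have hagree : ∀ m, ∀ y ∈ W, z (S m) y = z (S 0) y := by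
    intro m y hy
    obtain ⟨c, hc⟩ := hc y hy
    obtain ⟨U, h1, -, h2⟩ := hzc (S m)
    obtain ⟨V, h3, -, h4⟩ := hzc (S 0)
    rw [tendsto_nhds_unique (h2 y) (hc.mono_left h1), tendsto_nhds_unique (h4 y) (hc.mono_left h3)]
  obtain ⟨n, y, hy, hwy⟩ := exists_close _ hmono (w.comp L) (fun Θ hΘ => by
    obtain ⟨T, hT⟩ := hW Θ
    have h1 : ∀ m, Θ ((z (S m)).comp L) = 0 := fun m => hΘ (m + 1) _ (Submodule.subset_span (by
      rw [hSs, hz1]; exact Finset.mem_coe.2 (Finset.mem_insert_self _ _)))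
    have h2 : ∀ m, z (S m) T = z (S 0) T := fun m => by
      have h3 := hT (z (S m) - z (S 0)) fun y hy => by rw [sub_apply, hagree m y hy, sub_self]
      rw [ContinuousLinearMap.sub_comp, map_sub, h1, h1, sub_self, sub_apply] at h3
      exact sub_eq_zero.1 h3.symm
    have h3 := hT (w - z (S 0)) fun y hy => by
      rw [sub_apply, tendsto_nhds_unique (hwl y)
        (tendsto_const_nhds.congr fun m => (hagree m y hy).symm), sub_self]
    rw [ContinuousLinearMap.sub_comp, map_sub, h1, sub_zero, sub_apply, tendsto_nhds_unique (hwl T)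
      (tendsto_const_nhds.congr fun m => (h2 m).symm), sub_self] at h3
    exact h3) (ε / 4) (by positivity)
  obtain ⟨T, hT, h1⟩ := hesc (S n) y hy (by
    have h2 := norm_sub_norm_le y (w.comp L)
    rw [norm_sub_rev] at h2
    linarith [(w.opNorm_comp_le L).trans (mul_le_mul_of_nonneg_right hw (norm_nonneg L))])
  have h2 : ε / 4 ≤ ‖w (L T) - y T‖ := by
    refine ge_of_tendsto ((hwl (L T)).sub_const (y T)).norm ?_
    filter_upwards [(eventually_ge_atTop n).filter_mono hU] with m hm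
    refine h1 _ (Cl.mono φ ?_ (hzc (S m)))
    rw [← hSs, ← hSs]
    exact hanti (Nat.succ_le_succ hm)
  have h3 : ‖w (L T) - y T‖ ≤ ‖w.comp L - y‖ :=
    ((w.comp L - y).le_opNorm T).trans (mul_le_of_le_one_right (norm_nonneg _) hT)
  linarith

lemma frag (L : E →L[K] E') (W : Submodule K E')
    (hW : ∀ Θ : StrongDual K (StrongDual K E), ∃ t : E', ∀ u : StrongDual K E',
      (∀ y ∈ W, u y = 0) → Θ (u.comp L) = u t) (φ : ℕ → StrongDual K E')
    (C : ℝ) (hφ : ∀ n, ‖φ n‖ ≤ C) (hc : ∀ T ∈ W, ∃ c, Tendsto (fun n => φ n T) atTop (𝓝 c)) :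
    ∃ ψ : ℕ → ℕ, StrictMono ψ ∧ ∀ T, ∃ c, Tendsto (fun n => φ (ψ n) (L T)) atTop (𝓝 c) := by
  have hU : (hyperfilter ℕ : Filter ℕ) ≤ atTop := Nat.cofinite_eq_atTop ▸ hyperfilter_le_cofinite
  obtain ⟨ψ, hψ, hQ⟩ := fusion
    (fun i A => ∀ z ∈ Cl φ A, ∀ z' ∈ Cl φ A, ‖z.comp L - z'.comp L‖ ≤ 1 / (i + 1))
    fun i A hA => small_diam L W hW φ C hφ hc _ Nat.one_div_pos_of_nat A hA
  have key : ∀ V : Ultrafilter ℕ, (V : Filter ℕ) ≤ atTop → ∃ z : StrongDual K E',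
      (∀ T, Tendsto (fun n => φ (ψ n) T) V (𝓝 (z T))) ∧
      ∀ A : Set ℕ, (∀ᶠ n in atTop, ψ n ∈ A) → z ∈ Cl φ A := by
    intro V hV
    obtain ⟨z, -, hz⟩ := exists_ulim V (fun n => φ (ψ n)) C fun n => hφ _
    exact ⟨z, hz, fun A hA => ⟨V.map ψ, (hψ.tendsto_atTop.mono_left hV :), hV hA, hz⟩⟩
  obtain ⟨z, -, hz⟩ := key _ hU
  refine ⟨ψ, hψ, fun T => ⟨z (L T), (tendsto_iff_ultrafilter _ _ _).2 fun V hV => ?_⟩⟩
  obtain ⟨z', h1, h2⟩ := key V hV
  have h3 : ‖z.comp L - z'.comp L‖ ≤ 0 :=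
    ge_of_tendsto' tendsto_one_div_add_atTop_nhds_zero_nat fun i => by
      obtain ⟨A, h4, h5⟩ := hQ i
      exact h4 z (hz A h5) z' (h2 A h5)
  have h4 : z (L T) = z' (L T) :=
    congrArg (fun u : StrongDual K E => u T) (sub_eq_zero.1 (norm_le_zero_iff.1 h3))
  rw [h4]
  exact h1 (L T)

end Pool.Agent.Lib.GB86
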