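import Pool.Agent.Lib.GB86.James
import Pool.Agent.Lib.GB86.Rosenthal

/-! Subsymmetric families of projections: gluing rank one operators, shattering systems. -/

open Filter Topology RCLike

namespace Pool.Agent.Lib.GB86

variable {K : Type} [RCLike K] {X : Type} [NormedAddCommGroup X] [NormedSpace K X]

structure Sub (P : ℕ → X →L[K] X) (b : ℕ → ℕ) (C : ℝ) : Prop where
  nonneg : 0 ≤ C
  idem : ∀ k x, P k (P k x) = P k x
  orth : ∀ k l x, k ≠ l → P k (P l x) = 0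
  dom : ∀ (x : X) (F : Finset ℕ) (α β : ℕ → ℕ) (y : ℕ → X), StrictMonoOn α F → StrictMonoOn β F →
    (∀ i ∈ F, b (α i) = b (β i) ∧ P (β i) (y i) = y i ∧ ‖y i‖ ≤ ‖P (α i) x‖) →
    ‖∑ i ∈ F, y i‖ ≤ C * ‖x‖

variable {P : ℕ → X →L[K] X} {b : ℕ → ℕ} {C : ℝ}

lemma IsBlockSubsymmetric.sub (h : IsBlockSubsymmetric P) : ∃ b C, Sub P b C ∧
    ∀ M, ∃ s : Finset ℕ, M ≤ s.card ∧ ∀ i ∈ s, ∀ j ∈ s, b i = b j := by
  obtain ⟨h1, h2, b, C, hb, h4⟩ := h
  exact ⟨b, |C|, ⟨abs_nonneg C, h1, h2, fun x F α β y hα hβ hy => (h4 x F α β y hα hβ hy).trans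
    (mul_le_mul_of_nonneg_right (le_abs_self C) (norm_nonneg x))⟩, hb⟩

lemma Sub.dom' (h : Sub P b C) {ι : Type} (x : X) (F : Finset ι) (α β : ι → ℕ) (y : ι → X)
    (hα : Set.InjOn α F) (hαβ : ∀ i ∈ F, ∀ j ∈ F, α i < α j → β i < β j)
    (hy : ∀ i ∈ F, b (α i) = b (β i) ∧ P (β i) (y i) = y i ∧ ‖y i‖ ≤ ‖P (α i) x‖) :
    ‖∑ i ∈ F, y i‖ ≤ C * ‖x‖ := by
  rcases F.eq_empty_or_nonempty with rfl | ⟨i0, -⟩
  · simpa using mul_nonneg h.nonneg (norm_nonneg x)
  have : Nonempty ι := ⟨i0⟩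
  have hinv : ∀ i ∈ F, Function.invFunOn α F (α i) = i := fun i hi => hα.leftInvOn_invFunOn hi
  have h1 := h.dom x (F.image α) id (fun n => β (Function.invFunOn α F n))
    (fun n => y (Function.invFunOn α F n)) (strictMono_id.strictMonoOn _) (by
      intro n hn m hm hnm
      obtain ⟨i, hi, rfl⟩ := Finset.mem_image.1 (Finset.mem_coe.1 hn)
      obtain ⟨j, hj, rfl⟩ := Finset.mem_image.1 (Finset.mem_coe.1 hm)
      simp only [hinv i hi, hinv j hj]
      exact hαβ i hi j hj hnm) (by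
      intro n hn
      obtain ⟨i, hi, rfl⟩ := Finset.mem_image.1 hn
      simp only [hinv i hi, id]
      exact hy i hi)
  rwa [Finset.sum_image hα, Finset.sum_congr rfl fun i hi => by rw [hinv i hi]] at h1

lemma Sub.norm_le (h : Sub P b C) (k : ℕ) (x : X) : ‖P k x‖ ≤ C * ‖x‖ := by
  have h1 := h.dom x {k} id id (fun i => P i x) (strictMono_id.strictMonoOn _)
    (strictMono_id.strictMonoOn _) fun i _ => ⟨rfl, h.idem i x, le_rfl⟩
  simpa using h1

lemma Sub.apply_eq_zero (h : Sub P b C) {g : StrongDual K X} {m n : ℕ} (hg : ∀ x, ‖g x‖ ≤ ‖P m x‖)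
    (hmn : m ≠ n) {x : X} (hx : P n x = x) : g x = 0 := by
  have h1 := hg x
  rw [← hx, h.orth m n x hmn, norm_zero, hx] at h1
  exact norm_le_zero_iff.1 h1

lemma Sub.apply_proj (h : Sub P b C) {g : StrongDual K X} {m : ℕ} (hg : ∀ x, ‖g x‖ ≤ ‖P m x‖)
    (x : X) : g (P m x) = g x := by
  have h1 := hg (P m x - x)
  rw [map_sub (P m), h.idem, sub_self, norm_zero, map_sub] at h1
  exact sub_eq_zero.1 (norm_le_zero_iff.1 h1)

lemma Sub.glue [CompleteSpace X] (h : Sub P b C) (hsum : ∀ x, Summable fun k => P k x)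
    {ι : Type} (α β : ι → ℕ)
    (hα : Function.Injective α) (hαβ : ∀ i j, α i < α j → β i < β j) (hb : ∀ i, b (α i) = b (β i))
    (g : ι → StrongDual K X) (hg : ∀ n x, ‖g n x‖ ≤ ‖P (α n) x‖) (v : ι → X)
    (hv : ∀ n, P (β n) (v n) = v n) (hv1 : ∀ n, ‖v n‖ ≤ 1) :
    ∃ T : X →L[K] X, ‖T‖ ≤ C ∧ ∀ n x, P (α n) x = x → T x = g n x • v n := by
  have hb : ∀ (x x' : X) (F : Finset ι), (∀ n ∈ F, P (α n) x' = P (α n) x) →
      ‖∑ n ∈ F, g n x • v n‖ ≤ C * ‖x'‖ := by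
    intro x x' F hF
    refine h.dom' x' F α β _ hα.injOn (fun i _ j _ => hαβ i j) fun n hn =>
      ⟨hb n, by rw [map_smul, hv], ?_⟩
    rw [norm_smul, hF n hn]
    calc ‖g n x‖ * ‖v n‖ ≤ ‖P (α n) x‖ * 1 := by gcongr; exacts [hg n x, hv1 n]
      _ = ‖P (α n) x‖ := mul_one _
  have hs : ∀ x, Summable fun n => g n x • v n := by
    intro x
    refine summable_iff_vanishing_norm.2 fun ε hε => ?_
    have hC := h.nonneg
    obtain ⟨s, hs⟩ := summable_iff_vanishing_norm.1 ((hsum x).comp_injective hα) (ε / (C + 1))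
      (by positivity)
    refine ⟨s, fun t ht => ?_⟩
    have h1 := hb x (∑ n ∈ t, P (α n) x) t fun n hn => by
      rw [map_sum, Finset.sum_eq_single n (fun m _ hm => h.orth _ _ x (hα.ne hm.symm))
        (fun hn' => absurd hn hn'), h.idem]
    have h2 : ‖∑ n ∈ t, P (α n) x‖ < ε / (C + 1) := hs t ht
    rw [lt_div_iff₀ (by positivity)] at h2
    nlinarith [norm_nonneg (∑ n ∈ t, P (α n) x)]
  let L : X →ₗ[K] X :=
    { toFun := fun x => ∑' n, g n x • v n
      map_add' := fun x y => by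
        rw [← (hs x).tsum_add (hs y)]
        exact tsum_congr fun n => by rw [map_add, add_smul]
      map_smul' := fun c x => by
        rw [RingHom.id_apply, ← (hs x).tsum_const_smul c]
        exact tsum_congr fun n => by rw [map_smul, smul_eq_mul, mul_smul] }
  have hL : ∀ x, ‖L x‖ ≤ C * ‖x‖ := fun x =>
    le_of_tendsto' (Tendsto.norm (hs x).hasSum) fun F => hb x x F fun _ _ => rfl
  refine ⟨L.mkContinuous C hL, L.mkContinuous_norm_le h.nonneg hL, fun n x hx => ?_⟩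
  show ∑' n, g n x • v n = _
  exact tsum_eq_single n fun m hm => by rw [h.apply_eq_zero (hg m) (hα.ne hm) hx, zero_smul]

lemma Sub.james [CompleteSpace X] (h : Sub P b C) (k : ℕ)
    (hk : ¬ IsReflexiveSpace K (LinearMap.range (P k).toLinearMap)) :
    ∃ (x : ℕ → X) (f : ℕ → StrongDual K X), (∀ i, P k (x i) = x i ∧ ‖x i‖ ≤ 1) ∧
      (∀ j z, ‖f j z‖ ≤ ‖P k z‖) ∧ (∀ i j, j ≤ i → 1 / 2 ≤ re (f j (x i))) ∧
      ∀ i j, i < j → re (f j (x i)) ≤ 1 / 8 := by
  have hcl : IsClosed ((LinearMap.range (P k).toLinearMap : Submodule K X) : Set X) :=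
    ContinuousLinearMap.IsIdempotentElem.isClosed_range (p := P k) (by ext x; exact h.idem k x)
  have : CompleteSpace (LinearMap.range (P k).toLinearMap) := hcl.completeSpace_coe
  obtain ⟨x, f, hx, hf, h1, h0⟩ := GB86.james hk
  set Q : X →L[K] LinearMap.range (P k).toLinearMap :=
    (P k).codRestrict _ fun z => ⟨z, rfl⟩ with hQ
  have hP : ∀ i, P k (x i) = x i := fun i => by
    obtain ⟨z, hz⟩ := (x i).2
    rw [← hz]; exact h.idem k z
  have hQx : ∀ i, Q (x i) = x i := fun i => Subtype.ext (hP i)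
  refine ⟨fun i => x i, fun j => (f j).comp Q, fun i => ⟨hP i, hx i⟩, fun j z => ?_,
    fun i j hij => ?_, fun i j hij => ?_⟩
  · calc ‖f j (Q z)‖ ≤ ‖f j‖ * ‖Q z‖ := (f j).le_opNorm _
      _ ≤ 1 * ‖Q z‖ := by gcongr; exact hf j
      _ = ‖P k z‖ := one_mul _
  · show 1 / 2 ≤ re (f j (Q (x i)))
    rw [hQx]; exact h1 i j hij
  · show re (f j (Q (x i))) ≤ 1 / 8
    rw [hQx]; exact h0 i j hij

lemma Sub.units [CompleteSpace X] (h : Sub P b C) (k : ℕ)
    (hk : ¬ IsReflexiveSpace K (LinearMap.range (P k).toLinearMap)) :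
    ∃ (w : X) (y : StrongDual K X), P k w = w ∧ ‖w‖ ≤ 1 ∧ (∀ z, ‖y z‖ ≤ ‖P k z‖) ∧ y w = 1 := by
  obtain ⟨x, f, hx, -, h1, -⟩ := h.james k hk
  have h0 : x 0 ≠ 0 := fun h0 => by
    have h2 := h1 0 0 le_rfl
    rw [h0, map_zero, map_zero] at h2
    linarith
  have hn : ‖x 0‖ ≠ 0 := norm_ne_zero_iff.2 h0
  set w : X := ((‖x 0‖⁻¹ : ℝ) : K) • x 0 with hw
  have hw1 : ‖w‖ = 1 := by
    rw [hw, norm_smul, norm_ofReal, abs_of_nonneg (by positivity), inv_mul_cancel₀ hn]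
  have hPw : P k w = w := by rw [hw, map_smul, (hx 0).1]
  obtain ⟨g, hg, hgw⟩ := exists_dual_vector'' K w
  refine ⟨w, g.comp (P k), hPw, hw1.le, fun z => ?_, ?_⟩
  · calc ‖g (P k z)‖ ≤ ‖g‖ * ‖P k z‖ := g.le_opNorm _
      _ ≤ 1 * ‖P k z‖ := by gcongr
      _ = ‖P k z‖ := one_mul _
  · show g (P k w) = 1
    rw [hPw, hgw, hw1, ofReal_one]

/-- The sign attached to a code. -/
noncomputable def sg (a : Finset ℕ) (m : ℕ) : ℝ := if m ∈ a then -1 else 1

/-- A shattering system of size `M` in the range of `Q`. -/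
def Shat (Q : X →L[K] X) (D δ : ℝ) (M : ℕ) : Prop :=
  ∃ (g : ℕ → StrongDual K X) (e : Finset ℕ → X), (∀ m x, ‖g m x‖ ≤ ‖Q x‖) ∧
    (∀ a, Q (e a) = e a ∧ ‖e a‖ ≤ D) ∧ ∀ a, ∀ m < M, δ ≤ sg a m * re (g m (e a))

lemma Sub.shat [CompleteSpace X] (h : Sub P b C) (hsum : ∀ x, Summable fun k => P k x)
    (hE : IsGrothendieck K (X →L[K] X))
    (hN : ∀ k, ¬ IsReflexiveSpace K (LinearMap.range (P k).toLinearMap)) (U : Ultrafilter ℕ) :
    ∃ δ, 0 < δ ∧ ∀ M, ∀ᶠ k in (U : Filter ℕ), Shat (P k) (C * 2) δ M := by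
  choose x f hx hf h1 h0 using fun k => h.james k (hN k)
  choose w y hw hw1 hy hyw using fun k => h.units k (hN k)
  have hC := h.nonneg
  have hTw : ∀ (T : X →L[K] X) k, ‖T (w k)‖ ≤ ‖T‖ := fun T k =>
    (T.le_opNorm _).trans (mul_le_of_le_one_right (norm_nonneg T) (hw1 k))
  choose ψ hψ hψl using fun j => exists_ulim U
    (fun k => (f k j).comp (ContinuousLinearMap.apply K X (w k))) C fun k =>
      ContinuousLinearMap.opNorm_le_bound _ hC fun T =>
        ((hf k j _).trans (h.norm_le k _)).trans (mul_le_mul_of_nonneg_left (hTw T k) hC)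
  have hψr : ∀ j T, Tendsto (fun k => re (f k j (T (w k)))) U (𝓝 (re (ψ j T))) :=
    fun j T => (continuous_re.tendsto _).comp (hψl j T)
  choose S hS hSw using fun i => h.glue hsum id id Function.injective_id (fun _ _ h => h)
    (fun _ => rfl) y hy (fun k => x k i)
    (fun k => (hx k i).1) fun k => (hx k i).2
  have hSx : ∀ i k, S i (w k) = x k i := fun i k => by rw [hSw i k _ (hw k), hyw, one_smul]
  rcases rosenthal (B := {T : X →L[K] X // ‖T‖ ≤ 1}) (fun j T => re (ψ j T.1)) (fun T => ⟨C,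
    fun j => (abs_re_le_norm _).trans (((ψ j).le_opNorm _).trans (by
      calc ‖ψ j‖ * ‖T.1‖ ≤ C * 1 := by gcongr; exacts [hψ j, T.2]
        _ = C := mul_one C))⟩) with ⟨φ, hφ, hc⟩ | ⟨r1, r2, hr, hM⟩
  · exfalso
    refine not_conv hE (fun n => ψ (φ n)) (fun n => S (φ n)) C (1 / 8) (1 / 2) (by norm_num)
      (fun i => hS _) (fun i j hij => ge_of_tendsto' (hψr _ _) fun k => ?_)
      (fun i j hij => le_of_tendsto' (hψr _ _) fun k => ?_) fun T => ?_
    · rw [hSx]; exact h1 k _ _ (hφ.monotone hij)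
    · rw [hSx]; exact h0 k _ _ (hφ hij)
    · have hp : 0 < ‖T‖ + 1 := by positivity
      obtain ⟨c, hc⟩ := hc ⟨(((‖T‖ + 1)⁻¹ : ℝ) : K) • T, by
        rw [norm_smul, norm_ofReal, abs_of_pos (inv_pos.2 hp), inv_mul_le_iff₀ hp]; linarith⟩
      refine ⟨(‖T‖ + 1) * c, (hc.const_mul (‖T‖ + 1)).congr fun n => ?_⟩
      rw [map_smul, smul_eq_mul, re_ofReal_mul, ← mul_assoc, mul_inv_cancel₀ hp.ne', one_mul]
  · refine ⟨r2 - r1, by linarith, fun M => ?_⟩
    obtain ⟨t, -, ht⟩ := hM M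
    choose T hT using ht
    have hev : ∀ᶠ k in (U : Filter ℕ), ∀ (a : Fin M → Bool) (m : Fin M),
        (a m = true → r2 < re (f k (t m) ((T a).1 (w k)))) ∧
        (a m = false → re (f k (t m) ((T a).1 (w k))) < r1) := by
      refine eventually_all.2 fun a => eventually_all.2 fun m => ?_
      cases hb : a m
      · exact ((hψr _ _).eventually (gt_mem_nhds ((hT a m).2 hb))).mono fun k hk =>
          ⟨fun h => by simp at h, fun _ => hk⟩
      · exact ((hψr _ _).eventually (lt_mem_nhds ((hT a m).1 hb))).mono fun k hk =>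
          ⟨fun _ => hk, fun h => by simp at h⟩
    refine hev.mono fun k hk => ?_
    refine ⟨fun m => f k (if hm : m < M then t ⟨m, hm⟩ else 0),
      fun a => P k ((T fun m => decide (m.1 ∉ a)).1 (w k) - (T fun m => decide (m.1 ∈ a)).1 (w k)),
      fun m z => hf k _ z, fun a => ⟨h.idem k _, (h.norm_le k _).trans ?_⟩, fun a m hm => ?_⟩
    · refine mul_le_mul_of_nonneg_left ((norm_sub_le _ _).trans ?_) hC
      linarith [(hTw _ k).trans (T fun m => decide (m.1 ∉ a)).2,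
        (hTw _ k).trans (T fun m => decide (m.1 ∈ a)).2]
    · simp only [dif_pos hm]
      rw [h.apply_proj (hf k _), map_sub, map_sub]
      have h2 := hk (fun m => decide (m.1 ∉ a)) ⟨m, hm⟩
      have h3 := hk (fun m => decide (m.1 ∈ a)) ⟨m, hm⟩
      by_cases hma : m ∈ a
      · have h4 := h2.2 (by simp [hma])
        have h5 := h3.1 (by simp [hma])
        rw [sg, if_pos hma]; linarith
      · have h4 := h2.1 (by simp [hma])
        have h5 := h3.2 (by simp [hma])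
        rw [sg, if_neg hma]; linarith

/-- An ultrafilter all of whose members meet single blocks in arbitrarily many late points. -/
lemma exists_block_ultrafilter (b : ℕ → ℕ)
    (hb : ∀ M, ∃ s : Finset ℕ, M ≤ s.card ∧ ∀ i ∈ s, ∀ j ∈ s, b i = b j) :
    ∃ U : Ultrafilter ℕ, ∀ S ∈ U, ∀ L M : ℕ, ∃ k : ℕ → ℕ, (∀ i j, i < j → j < M → k i < k j) ∧
      (∀ i < M, k i ∈ S ∧ L ≤ k i) ∧ ∀ i < M, ∀ j < M, b (k i) = b (k j) := by
  classical
  let F : Filter ℕ :=
    { sets := {S | ∃ M, ∀ s : Finset ℕ, (∀ i ∈ s, i ∉ S) → (∀ i ∈ s, ∀ j ∈ s, b i = b j) →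
        s.card ≤ M}
      univ_sets := ⟨0, fun s hs _ => by
        rw [Finset.eq_empty_of_forall_notMem fun i hi => hs i hi (Set.mem_univ i)]
        simp⟩
      sets_of_superset := by
        rintro S S' ⟨M, hM⟩ hSS
        exact ⟨M, fun s hs hs' => hM s (fun i hi h => hs i hi (hSS h)) hs'⟩
      inter_sets := by
        rintro S S' ⟨M, hM⟩ ⟨M', hM'⟩
        refine ⟨M' + M, fun s hs hs' => ?_⟩
        rw [← Finset.card_filter_add_card_filter_not (s := s) (fun i => i ∈ S)]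
        refine add_le_add (hM' _ (fun i hi h => ?_) fun i hi j hj => ?_)
          (hM _ (fun i hi => (Finset.mem_filter.1 hi).2) fun i hi j hj => ?_)
        · exact hs i (Finset.mem_filter.1 hi).1 ⟨(Finset.mem_filter.1 hi).2, h⟩
        · exact hs' i (Finset.mem_filter.1 hi).1 j (Finset.mem_filter.1 hj).1
        · exact hs' i (Finset.mem_filter.1 hi).1 j (Finset.mem_filter.1 hj).1 }
  have hF : F.NeBot := by
    refine ⟨fun h => ?_⟩
    obtain ⟨M, hM⟩ : (∅ : Set ℕ) ∈ F := by rw [h]; exact mem_bot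
    obtain ⟨s, hs, hs'⟩ := hb (M + 1)
    have := hM s (fun i _ h => h) hs'
    omega
  refine ⟨Ultrafilter.of F, fun S hS L M => ?_⟩
  have h1 : Set.Ici L ∈ Ultrafilter.of F := by
    refine Ultrafilter.of_le F ⟨L, fun s hs _ => ?_⟩
    rw [← Finset.card_range L]
    exact Finset.card_le_card fun i hi => Finset.mem_range.2 (not_le.1 (hs i hi))
  have h2 : (S ∩ Set.Ici L)ᶜ ∉ F := fun h =>
    Ultrafilter.compl_notMem_iff.2 (inter_mem hS h1) (Ultrafilter.of_le F h)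
  obtain ⟨s, hs, hs', hM⟩ : ∃ s : Finset ℕ, (∀ i ∈ s, i ∈ S ∩ Set.Ici L) ∧
      (∀ i ∈ s, ∀ j ∈ s, b i = b j) ∧ M < s.card := by
    by_contra h3
    refine h2 ⟨M, fun s hs hs' => ?_⟩
    by_contra h4
    exact h3 ⟨s, fun i hi => not_not.1 (hs i hi), hs', not_le.1 h4⟩
  have hm : ∀ i (hi : i < s.card), s.orderEmbOfFin rfl ⟨i, hi⟩ ∈ s := fun i hi =>
    s.orderEmbOfFin_mem rfl _
  refine ⟨fun i => if hi : i < s.card then s.orderEmbOfFin rfl ⟨i, hi⟩ else 0,
    fun i j hij hj => ?_, fun i hi => ?_, fun i hi j hj => ?_⟩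
  · simp only [dif_pos (hj.trans hM), dif_pos ((hij.trans hj).trans hM)]
    exact (s.orderEmbOfFin rfl).strictMono hij
  · simp only [dif_pos (hi.trans hM)]
    exact hs _ (hm _ _)
  · simp only [dif_pos (hi.trans hM), dif_pos (hj.trans hM)]
    exact hs' _ (hm _ _) _ (hm _ _)

end Pool.Agent.Lib.GB86
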