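import Pool.Agent.Lib.GB86.Rosenthal

/-! Rosenthal's independence lemma, with pairs of discs. -/

open Filter Topology

namespace Pool.Agent.Lib.GB86

section
variable {B : Type*} (S : Bool → ℕ → Set B)

/-- No point of `X` alternates between the two families along `L`. -/
def Conv (X : Set B) (L : Set ℕ) : Prop :=
  ∀ x ∈ X, ¬ ((∃ᶠ j in atTop, j ∈ L ∧ x ∈ S true j) ∧ ∃ᶠ j in atTop, j ∈ L ∧ x ∈ S false j)

/-- Along every infinite subset of `L` some point of `X` alternates. -/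
def Bad (X : Set B) (L : Set ℕ) : Prop := ∀ L' ⊆ L, L'.Infinite → ¬ Conv S X L'

lemma bad_step {ι : Type*} [Finite ι] (X : ι → Set B) (L : Set ℕ) (hL : L.Infinite)
    (h : ∀ i, Bad S (X i) L) : ∃ j ∈ L, ∃ L' ⊆ L, L'.Infinite ∧ (∀ l ∈ L', j < l) ∧
      ∀ i c, Bad S (X i ∩ S c j) L' := by
  by_contra hn
  have step : ∀ T : {T : Set ℕ // T ⊆ L ∧ T.Infinite}, ∃ (a : ℕ)
      (R : {T : Set ℕ // T ⊆ L ∧ T.Infinite}) (c : ι × Bool), a ∈ T.1 ∧ R.1 ⊆ T.1 ∧
      (∀ j ∈ R.1, a < j) ∧ Conv S (X c.1 ∩ S c.2 a) R.1 := by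
    rintro ⟨T, hT, hTi⟩
    obtain ⟨a, ha⟩ := hTi.nonempty
    have h1 : (T \ Set.Iic a).Infinite := hTi.sdiff (Set.finite_Iic a)
    by_contra h2
    refine hn ⟨a, hT ha, T \ Set.Iic a, Set.sdiff_subset.trans hT, h1, fun l hl => by
      simpa using hl.2, fun i c R hR hRi hc => ?_⟩
    exact h2 ⟨a, ⟨R, hR.trans (Set.sdiff_subset.trans hT), hRi⟩, (i, c), ha,
      hR.trans Set.sdiff_subset, fun j hj => by simpa using (hR hj).2, hc⟩
  choose a R col ha hR hlt hcol using step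
  set T : ℕ → {T : Set ℕ // T ⊆ L ∧ T.Infinite} := fun n => R^[n] ⟨L, le_rfl, hL⟩ with hT
  have hTs : ∀ n, T (n + 1) = R (T n) := fun n => Function.iterate_succ_apply' _ _ _
  have hanti : Antitone fun n => (T n).1 :=
    antitone_nat_of_succ_le fun n => by rw [hTs]; exact hR _
  have hmem : ∀ n m, n < m → a (T m) ∈ (R (T n)).1 := fun n m h => by
    rw [← hTs]; exact hanti (Nat.succ_le_of_lt h) (ha _)
  have hsm : StrictMono fun n => a (T n) := fun n m h => hlt _ _ (hmem n m h)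
  obtain ⟨y, hy⟩ := Finite.exists_infinite_fiber (fun n => col (T n))
  have hy' : ((fun n => col (T n)) ⁻¹' {y}).Infinite := Set.infinite_coe_iff.1 hy
  refine h y.1 ((fun n => a (T n)) '' ((fun n => col (T n)) ⁻¹' {y})) ?_
    (hy'.image hsm.injective.injOn) fun x hx hf => ?_
  · rintro _ ⟨n, -, rfl⟩
    exact (T n).2.1 (ha _)
  · obtain ⟨_, ⟨n, hn, rfl⟩, hj⟩ : ∃ j, j ∈ (fun n => a (T n)) '' ((fun n => col (T n)) ⁻¹' {y}) ∧
        x ∈ S y.2 j := by
      cases y.2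
      exacts [hf.2.exists, hf.1.exists]
    have hn' : col (T n) = y := hn
    have h1 := hcol (T n)
    rw [hn'] at h1
    have hev : ∀ᶠ j in atTop, j ∈ (fun n => a (T n)) '' ((fun n => col (T n)) ⁻¹' {y}) →
        j ∈ (R (T n)).1 := by
      filter_upwards [eventually_gt_atTop (a (T n))] with j hj
      rintro ⟨m, -, rfl⟩
      exact hmem n m (hsm.lt_iff_lt.1 hj)
    exact h1 x ⟨hx, hj⟩ ⟨(hf.1.and_eventually hev).mono fun j hj => ⟨hj.2 hj.1.1, hj.1.2⟩,
      (hf.2.and_eventually hev).mono fun j hj => ⟨hj.2 hj.1.1, hj.1.2⟩⟩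

lemma indep (L : Set ℕ) (hL : L.Infinite) (h : Bad S Set.univ L) :
    ∃ n : ℕ → ℕ, StrictMono n ∧ ∀ (N : ℕ) (a : ℕ → Bool), ∃ x, ∀ m < N, x ∈ S (a m) (n m) := by
  classical
  let St := {p : Finset ℕ × Set ℕ // p.2.Infinite ∧
    ∀ a : ℕ → Bool, Bad S {x | ∀ j ∈ p.1, x ∈ S (a j) j} p.2}
  have step : ∀ p : St, ∃ (j : ℕ) (q : St), j ∈ p.1.2 ∧ q.1.1 = insert j p.1.1 ∧
      q.1.2 ⊆ p.1.2 ∧ ∀ l ∈ q.1.2, j < l := by
    rintro ⟨⟨t, T⟩, hT, hb⟩
    obtain ⟨j, hj, L', hL', hi, hlt, hbad⟩ := bad_step S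
      (fun a : t → Bool => {x | ∀ j : t, x ∈ S (a j) j}) T hT fun a => by
        have h1 := hb fun j => if hj : j ∈ t then a ⟨j, hj⟩ else false
        have h2 : {x | ∀ j ∈ t, x ∈ S (if hj : j ∈ t then a ⟨j, hj⟩ else false) j} =
            {x | ∀ j : t, x ∈ S (a j) j} := by
          ext x
          exact ⟨fun h j => by simpa [j.2] using h j j.2,
            fun h j hj => by simpa [hj] using h ⟨j, hj⟩⟩
        rwa [h2] at h1
    refine ⟨j, ⟨(insert j t, L'), hi, fun a => ?_⟩, hj, rfl, hL', hlt⟩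
    have h1 := hbad (fun j => a j) (a j)
    have h2 : {x | ∀ j : t, x ∈ S (a j) j} ∩ S (a j) j =
        {x | ∀ l ∈ insert j t, x ∈ S (a l) l} := by
      ext x
      simp [and_comm]
    rwa [h2] at h1
  choose j R hj ht hR hlt using step
  set T : ℕ → St := fun n => R^[n] ⟨(∅, L), hL, fun a => by simpa using h⟩ with hT
  have hTs : ∀ n, T (n + 1) = R (T n) := fun n => Function.iterate_succ_apply' _ _ _
  have hsm : StrictMono fun n => j (T n) :=
    strictMono_nat_of_lt_succ fun n => hlt (T n) _ (by rw [← hTs]; exact hj _)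
  have hmem : ∀ N, ∀ m < N, j (T m) ∈ (T N).1.1 := by
    intro N
    induction N with
    | zero => simp
    | succ N ih =>
      intro m hm
      rw [hTs, ht]
      rcases (Nat.lt_succ_iff.1 hm).eq_or_lt with rfl | h1
      exacts [Finset.mem_insert_self _ _, Finset.mem_insert_of_mem (ih m h1)]
  refine ⟨_, hsm, fun N a => ?_⟩
  have h1 := (T N).2.2 (fun l => a (Function.invFun (fun n => j (T n)) l)) _ le_rfl (T N).2.1
  by_contra h2
  refine h1 fun x hx _ => h2 ⟨x, fun m hm => ?_⟩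
  have h3 := hx _ (hmem N m hm)
  rwa [Function.leftInverse_invFun hsm.injective m] at h3

end

lemma rosenthal_disc {K : Type} [RCLike K] {B : Type*} (u : ℕ → B → K)
    (hb : ∀ x, ∃ R, ∀ j, ‖u j x‖ ≤ R) :
    (∃ φ : ℕ → ℕ, StrictMono φ ∧ ∀ x, ∃ c, Tendsto (fun n => u (φ n) x) atTop (𝓝 c)) ∨
    ∃ z : Bool → K, z true ≠ z false ∧ ∃ n : ℕ → ℕ, StrictMono n ∧ ∀ (N : ℕ) (a : ℕ → Bool),
      ∃ x, ∀ m < N, ‖u (n m) x - z (a m)‖ ≤ ‖z true - z false‖ / 10 := by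
  classical
  refine or_iff_not_imp_right.2 fun h => ?_
  obtain ⟨e, he⟩ := exists_surjective_nat (ℕ × ℕ)
  set d := TopologicalSpace.denseSeq K with hd
  set z : ℕ → Bool → K := fun i c => if c then d (e i).1 else d (e i).2 with hz
  set S : ℕ → Bool → ℕ → Set B := fun i c j =>
    {x | ‖u j x - z i c‖ ≤ ‖z i true - z i false‖ / 10} with hS
  have key : ∀ (i : ℕ) (L : Set ℕ), L.Infinite → ∃ L' ⊆ L, L'.Infinite ∧
      (z i true ≠ z i false → Conv (S i) Set.univ L') := by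
    intro i L hL
    by_contra h1
    have h2 : z i true ≠ z i false := fun h2 => h1 ⟨L, le_rfl, hL, fun h3 => absurd h2 h3⟩
    exact h ⟨z i, h2, indep (S i) L hL fun L' h3 h4 h5 => h1 ⟨L', h3, h4, fun _ => h5⟩⟩
  obtain ⟨φ, hφ, hQ⟩ := fusion _ key
  refine ⟨φ, hφ, fun x => ?_⟩
  obtain ⟨R, hR⟩ := hb x
  have hmem : ∀ᶠ n in atTop, u (φ n) x ∈ Metric.closedBall (0 : K) R :=
    Eventually.of_forall fun n => by simpa using hR _
  obtain ⟨c, -, hc⟩ := (isCompact_closedBall (0 : K) R).exists_mapClusterPt_of_frequently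
    hmem.frequently
  refine ⟨c, (isCompact_closedBall (0 : K) R).tendsto_nhds_of_unique_mapClusterPt hmem
    fun c' _ hc' => ?_⟩
  by_contra hne
  have hpos : 0 < ‖c' - c‖ / 100 := by
    have := norm_pos_iff.2 (sub_ne_zero.2 hne)
    positivity
  obtain ⟨p, hp⟩ := (TopologicalSpace.denseRange_denseSeq K).exists_dist_lt c' hpos
  obtain ⟨q, hq⟩ := (TopologicalSpace.denseRange_denseSeq K).exists_dist_lt c hpos
  rw [dist_eq_norm, ← hd] at hp hq
  obtain ⟨i, hi⟩ := he (p, q)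
  have hz1 : z i true = d p := by simp [hz, hi]
  have hz2 : z i false = d q := by simp [hz, hi]
  have h1 : ‖c' - c‖ ≤ ‖c' - d p‖ + ‖d p - d q‖ + ‖c - d q‖ := by
    calc ‖c' - c‖ = ‖(c' - d p) + (d p - d q) - (c - d q)‖ := by congr 1; ring
      _ ≤ _ := (norm_sub_le _ _).trans (by gcongr; exact norm_add_le _ _)
  obtain ⟨L, hL, hev⟩ := hQ i
  have hfr : ∀ (w : K) (k : ℕ), MapClusterPt w atTop (fun n => u (φ n) x) →
      ‖w - d k‖ < ‖c' - c‖ / 100 →
      ∃ᶠ j in atTop, j ∈ L ∧ ‖u j x - d k‖ ≤ ‖d p - d q‖ / 10 := by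
    intro w k hw hk
    refine hφ.tendsto_atTop.frequently (((mapClusterPt_iff_frequently.1 hw _
      (Metric.ball_mem_nhds w hpos)).and_eventually hev).mono fun n hn => ⟨hn.2, ?_⟩)
    have h2 := hn.1
    rw [Metric.mem_ball, dist_eq_norm] at h2
    have h3 : ‖u (φ n) x - d k‖ ≤ ‖u (φ n) x - w‖ + ‖w - d k‖ :=
      norm_sub_le_norm_sub_add_norm_sub _ _ _
    linarith
  refine hL ?_ x (Set.mem_univ x) ⟨?_, ?_⟩
  · rw [hz1, hz2]
    intro h2
    rw [h2, sub_self, norm_zero] at h1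
    rw [h2] at hp
    linarith
  · simpa only [hS, hz1, hz2, Set.mem_ofPred_eq] using hfr c' p hc' hp
  · simpa only [hS, hz1, hz2, Set.mem_ofPred_eq] using hfr c q hc hq

end Pool.Agent.Lib.GB86
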