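import Pool.Agent.Lib.GB86.Defs

/-! Helly's lemma, James systems in non-reflexive spaces, ultralimits of functionals. -/

open Filter Topology RCLike

namespace Pool.Agent.Lib.GB86

variable {K : Type} [RCLike K] {E : Type} [NormedAddCommGroup E] [NormedSpace K E]

lemma norm_le_of_re (g : StrongDual K E) (c : ℝ) (h : ∀ x, ‖x‖ ≤ 1 → re (g x) ≤ c) :
    ‖g‖ ≤ c := by
  have hc : 0 ≤ c := by simpa using h 0 (by simp)
  refine ContinuousLinearMap.opNorm_le_of_unit_norm hc fun x hx => ?_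
  obtain ⟨a, ha, hax⟩ := RCLike.exists_norm_eq_mul_self (g x)
  have h1 := h (a • x) (by rw [norm_smul, ha, hx, mul_one])
  rw [map_smul, smul_eq_mul, ← hax, ofReal_re] at h1
  exact h1

lemma helly (ξ : StrongDual K (StrongDual K E)) (hξ : ‖ξ‖ ≤ 1) (s : Finset (StrongDual K E))
    (ε : ℝ) (hε : 0 < ε) : ∃ x : E, ‖x‖ ≤ 1 ∧ ∀ f ∈ s, |re (f x) - re (ξ f)| < ε := by
  classical
  set A : Set (s → ℝ) := {v | ∃ x : E, ‖x‖ ≤ 1 ∧ v = fun i => re (i.1 x)} with hA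
  have hconv : Convex ℝ A := by
    rintro _ ⟨x, hx, rfl⟩ _ ⟨y, hy, rfl⟩ a b ha hb hab
    refine ⟨(a : K) • x + (b : K) • y, ?_, ?_⟩
    · calc ‖(a : K) • x + (b : K) • y‖ ≤ ‖(a : K) • x‖ + ‖(b : K) • y‖ := norm_add_le _ _
        _ = a * ‖x‖ + b * ‖y‖ := by
          rw [norm_smul, norm_smul, norm_ofReal, norm_ofReal, abs_of_nonneg ha, abs_of_nonneg hb]
        _ ≤ a * 1 + b * 1 := by gcongr
        _ = 1 := by linarith
    · funext i
      simp
  have hmem : (fun i : s => re (ξ i.1)) ∈ closure A := by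
    by_contra hn
    obtain ⟨L, u, h1, h2⟩ := _root_.geometric_hahn_banach_point_closed hconv.closure
      isClosed_closure hn
    set c : s → ℝ := fun i => L (fun j => if i = j then 1 else 0) with hc
    have hL : ∀ v : s → ℝ, L v = ∑ i, v i * c i := fun v =>
      LinearMap.pi_apply_eq_sum_univ (L : (s → ℝ) →ₗ[ℝ] ℝ) v
    set g : StrongDual K E := ∑ i : s, (c i : K) • i.1 with hg
    have h3 : ‖-g‖ ≤ -u := by
      refine norm_le_of_re _ _ fun x hx => ?_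
      have h4 := h2 _ (subset_closure ⟨x, hx, rfl⟩)
      rw [hL] at h4
      have h5 : re (g x) = ∑ i : s, re (i.1 x) * c i := by
        simp [hg, mul_comm]
      rw [neg_apply, map_neg, h5]
      linarith
    have h6 : re (ξ g) = ∑ i : s, re (ξ i.1) * c i := by
      simp [hg, mul_comm]
    rw [hL, ← h6] at h1
    have h7 : ‖ξ g‖ ≤ -u := by
      rw [norm_neg] at h3
      calc ‖ξ g‖ ≤ ‖ξ‖ * ‖g‖ := ξ.le_opNorm g
        _ ≤ 1 * (-u) := by gcongr
        _ = -u := one_mul _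
    have h8 := (abs_le.1 ((abs_re_le_norm (ξ g)).trans h7)).1
    linarith
  obtain ⟨_, ⟨x, hx, rfl⟩, hd⟩ := Metric.mem_closure_iff.1 hmem ε hε
  refine ⟨x, hx, fun f hf => ?_⟩
  have h1 := (dist_le_pi_dist _ _ (⟨f, hf⟩ : s)).trans_lt hd
  rw [Real.dist_eq, abs_sub_comm] at h1
  exact h1

lemma exists_annihilator (W : Submodule K E) (hW : IsClosed (W : Set E)) (ξ0 : E) (h : ξ0 ∉ W) :
    ∃ (G : StrongDual K E) (ξ : E), ‖G‖ ≤ 1 ∧ ‖ξ‖ ≤ 1 ∧ (∀ x ∈ W, G x = 0) ∧ 7 / 8 < re (G ξ) := by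
  have h0 : (Submodule.Quotient.mk ξ0 : E ⧸ W) ≠ 0 := by simpa using h
  obtain ⟨g, -, hg⟩ := exists_dual_vector K (Submodule.Quotient.mk ξ0 : E ⧸ W)
    (norm_ne_zero_iff.2 h0)
  set G : StrongDual K E := g.comp W.mkQL with hG
  have hG0 : ∀ x ∈ W, G x = 0 := fun x hx => by
    have h1 : (Submodule.Quotient.mk x : E ⧸ W) = 0 := by simpa using hx
    show g (Submodule.Quotient.mk x) = 0
    rw [h1, map_zero]
  have hGn : 0 < ‖G‖ := by
    refine norm_pos_iff.2 fun h3 => ?_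
    have h4 : G ξ0 = ((‖(Submodule.Quotient.mk ξ0 : E ⧸ W)‖ : ℝ) : K) := hg
    rw [h3, zero_apply] at h4
    exact h0 (norm_eq_zero.1 (by exact_mod_cast h4.symm))
  obtain ⟨ξ, hξ, hlt⟩ := G.exists_lt_apply_of_lt_opNorm (r := 7 / 8 * ‖G‖) (by linarith)
  obtain ⟨a, ha, hax⟩ := RCLike.exists_norm_eq_mul_self (G ξ)
  refine ⟨(((‖G‖⁻¹ : ℝ) : K) * a) • G, ξ, ?_, hξ.le, fun x hx => by simp [hG0 x hx], ?_⟩
  · rw [norm_smul, norm_mul, ha, norm_ofReal, abs_of_pos (inv_pos.2 hGn), mul_one,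
      inv_mul_cancel₀ hGn.ne']
  · rw [smul_apply, smul_eq_mul, mul_assoc, ← hax, ← ofReal_mul, ofReal_re,
      lt_inv_mul_iff₀ hGn]
    linarith

lemma isClosed_range_li [CompleteSpace E] {F : Type} [NormedAddCommGroup F] [NormedSpace K F]
    (T : E →L[K] F) (h : ∀ x, ‖T x‖ = ‖x‖) : IsClosed (Set.range T) :=
  (AddMonoidHomClass.isometry_of_norm T h).isClosedEmbedding.isClosed_range

lemma dual_helly {Z : Type} [NormedAddCommGroup Z] [NormedSpace K Z] [CompleteSpace Z]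
    (T : Z →L[K] StrongDual K E) (hT : ∀ x, ‖T x‖ = ‖x‖) (h : ¬ Function.Surjective T) :
    ∃ ξ : StrongDual K E, ‖ξ‖ ≤ 1 ∧ ∀ s : Finset Z,
      ∃ f : E, ‖f‖ ≤ 1 ∧ 3 / 4 ≤ re (ξ f) ∧ ∀ x ∈ s, re (T x f) ≤ 1 / 8 := by
  classical
  obtain ⟨ξ0, hξ0⟩ : ∃ ξ0, ξ0 ∉ Set.range T := by
    by_contra h1
    exact h fun ξ => by_contra fun h2 => h1 ⟨ξ, h2⟩
  obtain ⟨G, ξ, hG, hξ, hG0, hGξ⟩ := exists_annihilator (E := StrongDual K E)
    (LinearMap.range T.toLinearMap) (isClosed_range_li T hT) ξ0 hξ0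
  refine ⟨ξ, hξ, fun s => ?_⟩
  obtain ⟨f, hf, hf'⟩ := helly G hG (insert ξ (s.image T)) (1 / 8) (by norm_num)
  have h1 := (abs_lt.1 (hf' ξ (Finset.mem_insert_self _ _))).1
  refine ⟨f, hf, by linarith, fun x hx => ?_⟩
  have h2 := (abs_lt.1 (hf' _ (Finset.mem_insert_of_mem (Finset.mem_image_of_mem T hx)))).2
  rw [hG0 (T x) ⟨x, rfl⟩, map_zero] at h2
  linarith

lemma exists_far [CompleteSpace E] (h : ¬ IsReflexiveSpace K E) :
    ∃ ξ : StrongDual K (StrongDual K E), ‖ξ‖ ≤ 1 ∧ ∀ s : Finset E,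
      ∃ f : StrongDual K E, ‖f‖ ≤ 1 ∧ 3 / 4 ≤ re (ξ f) ∧ ∀ x ∈ s, re (f x) ≤ 1 / 8 :=
  dual_helly (K := K) (E := StrongDual K E) (Z := E) (NormedSpace.inclusionInDoubleDual K E)
    (NormedSpace.inclusionInDoubleDualLi (E := E) K).norm_map h

lemma james [CompleteSpace E] (h : ¬ IsReflexiveSpace K E) :
    ∃ (x : ℕ → E) (f : ℕ → StrongDual K E), (∀ i, ‖x i‖ ≤ 1) ∧ (∀ j, ‖f j‖ ≤ 1) ∧
      (∀ i j, j ≤ i → 1 / 2 ≤ re (f j (x i))) ∧ ∀ i j, i < j → re (f j (x i)) ≤ 1 / 8 := by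
  classical
  obtain ⟨ξ, hξ, hfar⟩ := exists_far h
  obtain ⟨p, hp, hr⟩ := exists_seq_of_forall_finset_exists
    (fun p : E × StrongDual K E => ‖p.1‖ ≤ 1 ∧ ‖p.2‖ ≤ 1 ∧ 1 / 2 ≤ re (p.2 p.1) ∧
      3 / 4 ≤ re (ξ p.2))
    (fun p q => 1 / 2 ≤ re (p.2 q.1) ∧ re (q.2 p.1) ≤ 1 / 8) (by
      intro s hs
      obtain ⟨f, hf, h1, hf'⟩ := hfar (s.image fun p => p.1)
      obtain ⟨x, hx, hx'⟩ := helly ξ hξ (insert f (s.image fun p => p.2)) (1 / 4) (by norm_num)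
      have h2 := (abs_lt.1 (hx' f (Finset.mem_insert_self _ _))).1
      refine ⟨(x, f), ⟨hx, hf, by simp only; linarith, h1⟩, fun p hp => ?_⟩
      have h3 := (abs_lt.1 (hx' p.2 (Finset.mem_insert_of_mem
        (Finset.mem_image_of_mem (fun p : E × StrongDual K E => p.2) hp)))).1
      have h5 := (hs p hp).2.2.2
      exact ⟨by simp only; linarith,
        hf' _ (Finset.mem_image_of_mem (fun p : E × StrongDual K E => p.1) hp)⟩)
  refine ⟨fun i => (p i).1, fun j => (p j).2, fun i => (hp i).1, fun j => (hp j).2.1, ?_,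
    fun i j hij => (hr i j hij).2⟩
  intro i j hji
  rcases hji.eq_or_lt with rfl | hlt
  · exact (hp j).2.2.1
  · exact (hr j i hlt).1

lemma exists_ulim (U : Ultrafilter ℕ) (μ : ℕ → StrongDual K E) (C : ℝ) (h : ∀ n, ‖μ n‖ ≤ C) :
    ∃ σ : StrongDual K E, ‖σ‖ ≤ C ∧ ∀ x, Tendsto (fun n => μ n x) U (𝓝 (σ x)) := by
  have hc := WeakDual.isCompact_closedBall (𝕜 := K) (E := E) 0 C
  obtain ⟨σ, hσC, hσ⟩ := hc.ultrafilter_le_nhds
    (U.map fun n => StrongDual.toWeakDual (μ n)) (by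
      rw [Ultrafilter.coe_map, le_principal_iff, mem_map]
      exact univ_mem' fun n => by simpa using h n)
  refine ⟨WeakDual.toStrongDual σ, by simpa using hσC, fun x => ?_⟩
  have h1 : Tendsto (fun n => StrongDual.toWeakDual (μ n)) U (𝓝 σ) := hσ
  exact ((WeakDual.eval_continuous x).tendsto σ).comp h1

/-- In a Grothendieck space the functionals of a James system do not converge pointwise. -/
lemma not_conv [CompleteSpace E] (hE : IsGrothendieck K E) (ψ : ℕ → StrongDual K E) (S : ℕ → E)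
    (D θ0 θ1 : ℝ) (hθ : θ0 < θ1) (hS : ∀ i, ‖S i‖ ≤ D)
    (h1 : ∀ i j, j ≤ i → θ1 ≤ re (ψ j (S i))) (h0 : ∀ i j, i < j → re (ψ j (S i)) ≤ θ0) :
    ¬ ∀ x, ∃ c, Tendsto (fun j => re (ψ j x)) atTop (𝓝 c) := by
  intro hc
  have hc' : ∀ x, ∃ c, Tendsto (fun j => ψ j x) atTop (𝓝 c) := by
    intro x
    obtain ⟨a, ha⟩ := hc x
    obtain ⟨b, hb⟩ := hc ((I : K) • x)
    refine ⟨(a : K) + ((-b : ℝ) : K) * I, ?_⟩
    have h2 : (fun j => ψ j x) = fun j => ((re (ψ j x) : ℝ) : K) +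
        ((-(re (ψ j ((I : K) • x))) : ℝ) : K) * I := by
      funext j
      rw [map_smul, smul_eq_mul, I_mul_re, neg_neg, re_add_im]
    rw [h2]
    exact ((continuous_ofReal.tendsto a).comp ha).add
      (((continuous_ofReal.tendsto (-b)).comp hb.neg).mul_const _)
  choose f hf using hc'
  set σ : StrongDual K E := continuousLinearMapOfTendsto (l := atTop) ψ (tendsto_pi_nhds.2 hf)
  have hσ : ∀ x, Tendsto (fun j => ψ j x) atTop (𝓝 (σ x)) := hf
  obtain ⟨Θ, -, hΘ⟩ := exists_ulim (hyperfilter ℕ)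
    (fun i => NormedSpace.inclusionInDoubleDual K E (S i)) D
    fun i => (NormedSpace.double_dual_bound K E _).trans (hS i)
  have hU : (hyperfilter ℕ : Filter ℕ) ≤ atTop := Nat.cofinite_eq_atTop ▸ hyperfilter_le_cofinite
  have h2 : ∀ j, θ1 ≤ re (Θ (ψ j)) := fun j =>
    ge_of_tendsto ((continuous_re.tendsto _).comp (hΘ (ψ j)))
      (((eventually_ge_atTop j).filter_mono hU).mono fun i hi => h1 i j hi)
  have h3 : θ1 ≤ re (Θ σ) :=
    ge_of_tendsto' ((continuous_re.tendsto _).comp (hE ψ σ hσ Θ)) h2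
  have h4 : ∀ i, re (σ (S i)) ≤ θ0 := fun i =>
    le_of_tendsto ((continuous_re.tendsto _).comp (hσ (S i)))
      ((eventually_gt_atTop i).mono fun j hj => h0 i j hj)
  have h5 : re (Θ σ) ≤ θ0 := le_of_tendsto' ((continuous_re.tendsto _).comp (hΘ σ)) h4
  linarith

/-- A space with a quotient map onto the summable sequences is not a Grothendieck space. -/
lemma not_grothendieck_of_l1 [CompleteSpace E] (φ : ℕ → StrongDual K E) (T : ℕ → E) (D δ : ℝ)
    (hδ : 0 < δ) (hT : ∀ j, ‖T j‖ ≤ D) (hsum : ∀ S, ∃ R, ∀ I, ∑ i ∈ Finset.range I, |re (φ i S)| ≤ R)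
    (hoff : ∀ i j, i ≠ j → re (φ i (T j)) = 0) (hdiag : ∀ i, δ ≤ re (φ i (T i))) :
    ¬ IsGrothendieck K E := by
  intro hE
  have hψ : ∀ J S, re ((-∑ i ∈ Finset.range J, φ i) S) = -∑ i ∈ Finset.range J, re (φ i S) := by
    intro J S
    simp
  refine not_conv hE (fun J => -∑ i ∈ Finset.range J, φ i) T D (-δ) 0 (by linarith) hT
    (fun i j hij => ?_) (fun i j hij => ?_) fun S => ?_
  · rw [hψ, Finset.sum_eq_zero fun l hl => hoff l i (by have := Finset.mem_range.1 hl; omega),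
      neg_zero]
  · rw [hψ, Finset.sum_eq_single i (fun l _ hl => hoff l i hl)
      fun hi => absurd (Finset.mem_range.2 hij) hi]
    exact neg_le_neg (hdiag i)
  · obtain ⟨R, hR⟩ := hsum S
    have h1 : Summable fun i => re (φ i S) :=
      (summable_of_sum_range_le (fun _ => abs_nonneg _) hR).of_abs
    exact ⟨_, h1.hasSum.tendsto_sum_nat.neg.congr fun J => (hψ J S).symm⟩

end Pool.Agent.Lib.GB86
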