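import Pool.Agent.Lib.GB86.James
import Pool.Agent.Lib.GB86.Av

/-! Martingales with values in a weakly compact set are tight. -/

open Filter Topology RCLike

namespace Pool.Agent.Lib.GB86

variable {K : Type} [RCLike K] {E : Type} [NormedAddCommGroup E] [NormedSpace K E]

lemma exists_dual_dist (H : Submodule K E) (z : E) : ∃ Θ : StrongDual K E, ‖Θ‖ ≤ 1 ∧
    (∀ y ∈ H, Θ y = 0) ∧ Θ z = ((Metric.infDist z H : ℝ) : K) := by
  obtain ⟨g, hg, hgz⟩ := exists_dual_vector'' K (Submodule.Quotient.mk z : E ⧸ H)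
  refine ⟨g.comp H.mkQL, ContinuousLinearMap.opNorm_le_bound _ zero_le_one fun x => ?_,
    fun y hy => ?_, ?_⟩
  · exact (g.le_opNorm _).trans (mul_le_mul hg (Submodule.Quotient.norm_mk_le H x)
      (norm_nonneg _) zero_le_one)
  · have h1 : (Submodule.Quotient.mk y : E ⧸ H) = 0 := by simpa using hy
    show g (Submodule.Quotient.mk y) = 0
    rw [h1, map_zero]
  · exact hgz.trans (congrArg _ (QuotientAddGroup.norm_mk (S := H.toAddSubgroup) z))

lemma exists_close (H : ℕ → Submodule K E) (hH : Monotone H) (z : E)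
    (hz : ∀ Θ : StrongDual K E, (∀ n, ∀ y ∈ H n, Θ y = 0) → Θ z = 0) (η : ℝ) (hη : 0 < η) :
    ∃ n, ∃ y ∈ H n, ‖z - y‖ < η := by
  obtain ⟨Θ, -, h1, h2⟩ := exists_dual_dist (⨆ n, H n) z
  rw [hz Θ fun n y hy => h1 y (Submodule.mem_iSup_of_mem n hy)] at h2
  have h3 : Metric.infDist z ((⨆ n, H n : Submodule K E) : Set E) < η := by
    rw [show Metric.infDist z ((⨆ n, H n : Submodule K E) : Set E) = 0 by exact_mod_cast h2.symm]
    exact hη
  obtain ⟨y, hy, h4⟩ := (Metric.infDist_lt_iff ⟨0, Submodule.zero_mem _⟩).1 h3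
  obtain ⟨n, hn⟩ := (Submodule.mem_iSup_of_directed _ hH.directed_le).1 hy
  exact ⟨n, y, hn, by rwa [← dist_eq_norm]⟩

lemma finite_net (t : Set E) (ht : t.Finite) (R η : ℝ) (hη : 0 < η) :
    ∃ s : Finset E, ∀ y ∈ Submodule.span K t, ‖y‖ ≤ R → ∃ c ∈ s, ‖y - c‖ < η := by
  have := FiniteDimensional.span_of_finite K ht
  have := FiniteDimensional.proper_rclike K (Submodule.span K t)
  have hc := (isCompact_closedBall (0 : Submodule.span K t) R).image continuous_subtype_val
  obtain ⟨s, -, hs, hcov⟩ := finite_cover_balls_of_compact hc hη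
  refine ⟨hs.toFinset, fun y hy hR => ?_⟩
  obtain ⟨c, hc, h1⟩ := Set.mem_iUnion₂.1 (hcov ⟨⟨y, hy⟩, by simpa using hR, rfl⟩)
  exact ⟨c, hs.mem_toFinset.2 hc, by rwa [Metric.mem_ball, dist_eq_norm] at h1⟩

lemma av_sq_le (f : (ℕ → Bool) → ℝ) (k : ℕ) : ∀ (N : ℕ) (ω : ℕ → Bool),
    av f k N ω * av f k N ω ≤ av (fun ω' => f ω' * f ω') k N ω := by
  induction k with
  | zero => exact fun _ _ => le_rfl
  | succ k ih =>
    intro N ω
    simp only [av, smul_eq_mul]
    nlinarith [ih (N + 1) (Function.update ω N false), ih (N + 1) (Function.update ω N true),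
      sq_nonneg (av f k (N + 1) (Function.update ω N false) -
        av f k (N + 1) (Function.update ω N true))]

lemma abs_ex_le {f h : (ℕ → Bool) → ℝ} (hf : ∀ ω, |f ω| ≤ h ω) (N : ℕ) : |Ex N f| ≤ Ex N h := by
  refine abs_le.2 ⟨?_, av_mono (fun ω => (abs_le.1 (hf ω)).2) _ _ _⟩
  have h1 := av_mono (f := fun ω => (-1 : ℝ) • h ω) (g := f)
    (fun ω => by simpa using (abs_le.1 (hf ω)).1) N 0 fun _ => false
  rw [av_smul] at h1
  simpa [Ex] using h1

/-- Sets of uniformly positive mass have an infinite subfamily with nonempty finite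
intersections. -/
lemma intersect (A : ℕ → Set (ℕ × (ℕ → Bool))) (c0 : ℝ) (hc0 : 0 < c0)
    (hA : ∀ n, ∀ᶠ m in atTop, c0 ≤ Ex m fun ω => (A n).indicator (fun _ => (1 : ℝ)) (m, ω)) :
    ∃ n : ℕ → ℕ, StrictMono n ∧ ∀ J, ∃ q, ∀ k < J, q ∈ A (n k) := by
  classical
  have hU : (hyperfilter ℕ : Filter ℕ) ≤ atTop := Nat.cofinite_eq_atTop ▸ hyperfilter_le_cofinite
  set p : ℕ → Set (ℕ × (ℕ → Bool)) → ℝ := fun m B =>
    Ex m fun ω => B.indicator (fun _ => (1 : ℝ)) (m, ω) with hp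
  have hex : ∀ B, ∃ s, s ≤ 1 ∧ Tendsto (fun m => p m B) (hyperfilter ℕ) (𝓝 s) := by
    intro B
    obtain ⟨s, hs, h1⟩ := (isCompact_Icc (a := (0 : ℝ)) (b := 1)).ultrafilter_le_nhds
      ((hyperfilter ℕ).map fun m => p m B) (by
        rw [Ultrafilter.coe_map, le_principal_iff, mem_map]
        exact univ_mem' fun m => av_mem (convex_Icc 0 1) _ _ _ fun ω _ => by
          by_cases h : (m, ω) ∈ B <;> simp [h])
    exact ⟨s, hs.2, h1⟩
  choose σ hσ1 hσ using hex
  have hcs : ∀ (J : Finset ℕ) (B : ℕ → Set (ℕ × (ℕ → Bool))),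
      (∑ i ∈ J, σ (B i)) * (∑ i ∈ J, σ (B i)) ≤ ∑ i ∈ J, ∑ j ∈ J, σ (B i ∩ B j) := by
    intro J B
    have h1 := tendsto_finsetSum J fun i _ => hσ (B i)
    refine le_of_tendsto_of_tendsto' (h1.mul h1)
      (tendsto_finsetSum J fun i _ => tendsto_finsetSum J fun j _ => hσ (B i ∩ B j)) fun m => ?_
    simp only [hp, Ex, ← av_sum]
    refine (av_sq_le _ _ _ _).trans (le_of_eq ?_)
    congr 1
    funext ω
    rw [Finset.sum_mul_sum]
    refine Finset.sum_congr rfl fun i _ => Finset.sum_congr rfl fun j _ => ?_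
    by_cases hi : (m, ω) ∈ B i <;> by_cases hj : (m, ω) ∈ B j <;> simp [hi, hj]
  let Good : Set (ℕ × (ℕ → Bool)) → Prop := fun B =>
    ∃ c, 0 < c ∧ ∀ᶠ n in (hyperfilter ℕ : Filter ℕ), c ≤ σ (B ∩ A n)
  have step : ∀ (B : {B // Good B}) (N : ℕ), ∃ n, N < n ∧ Good (B.1 ∩ A n) := by
    rintro ⟨B, c, hc, hB⟩ N
    by_contra hn
    have h1 : ∀ n, N < n → ∀ᶠ n' in (hyperfilter ℕ : Filter ℕ),
        σ (B ∩ A n ∩ A n') < c * c / 2 := fun n h =>
      (Ultrafilter.eventually_not.2 fun h2 => hn ⟨n, h, _, by positivity, h2⟩).mono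
        fun _ h3 => not_le.1 h3
    obtain ⟨f, hf, hr⟩ := exists_seq_of_forall_finset_exists
      (fun n => N < n ∧ c ≤ σ (B ∩ A n)) (fun n n' => σ (B ∩ A n ∩ A n') < c * c / 2) fun s hs =>
      ((((eventually_gt_atTop N).filter_mono hU).and hB).and
        ((Finset.eventually_all s).2 fun n hn => h1 n (hs n hn).1)).exists
    obtain ⟨k, hk⟩ := exists_nat_gt (2 / (c * c))
    have h2 := hcs (Finset.range k) fun i => B ∩ A (f i)
    have h3 : (k : ℝ) * c ≤ ∑ i ∈ Finset.range k, σ (B ∩ A (f i)) := by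
      simpa using Finset.card_nsmul_le_sum (Finset.range k) _ c fun i _ => (hf i).2
    have h4 : ∑ i ∈ Finset.range k, ∑ j ∈ Finset.range k, σ (B ∩ A (f i) ∩ (B ∩ A (f j))) ≤
        ∑ i ∈ Finset.range k, ∑ j ∈ Finset.range k, ((if i = j then 1 else 0) + c * c / 2) := by
      refine Finset.sum_le_sum fun i _ => Finset.sum_le_sum fun j _ => ?_
      rcases lt_trichotomy i j with h | rfl | h
      · rw [if_neg h.ne, zero_add, show B ∩ A (f i) ∩ (B ∩ A (f j)) = B ∩ A (f i) ∩ A (f j) by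
          ext; simp only [Set.mem_inter_iff]; tauto]
        exact (hr i j h).le
      · rw [if_pos rfl]
        exact (hσ1 _).trans (le_add_of_nonneg_right (by positivity))
      · rw [if_neg h.ne', zero_add, show B ∩ A (f i) ∩ (B ∩ A (f j)) = B ∩ A (f j) ∩ A (f i) by
          ext; simp only [Set.mem_inter_iff]; tauto]
        exact (hr j i h).le
    have h5 : ∑ i ∈ Finset.range k, ∑ j ∈ Finset.range k,
        ((if i = j then (1 : ℝ) else 0) + c * c / 2) = k * (1 + k * (c * c / 2)) := by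
      rw [Finset.sum_congr rfl (g := fun _ => 1 + k * (c * c / 2)) fun i hi => by
        rw [Finset.sum_add_distrib, Finset.sum_ite_eq, if_pos hi]; simp]
      simp [mul_add]
    have hk0 : (0 : ℝ) < k := lt_trans (by positivity) hk
    have h6 := (mul_self_le_mul_self (by positivity) h3).trans (h2.trans (h4.trans h5.le))
    rw [div_lt_iff₀ (by positivity)] at hk
    nlinarith [mul_lt_mul_of_pos_left hk hk0]
  choose nx hnx hgood using step
  have h0 : Good Set.univ := ⟨c0, hc0, Eventually.of_forall fun n => by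
    rw [Set.univ_inter]
    exact ge_of_tendsto (hσ (A n)) ((hA n).filter_mono hU)⟩
  let T : ℕ → {B // Good B} × ℕ := fun k => Nat.rec (⟨Set.univ, h0⟩, 0)
    (fun _ q => (⟨q.1.1 ∩ A (nx q.1 q.2), hgood q.1 q.2⟩, nx q.1 q.2)) k
  have hT : ∀ J, ∀ q ∈ (T J).1.1, ∀ k < J, q ∈ A (T (k + 1)).2 := by
    intro J
    induction J with
    | zero => simp
    | succ J ih =>
      intro q hq k hk
      rcases (Nat.lt_succ_iff.1 hk).eq_or_lt with rfl | h1
      exacts [hq.2, ih q hq.1 k h1]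
  refine ⟨fun k => (T (k + 1)).2, strictMono_nat_of_lt_succ fun k => hnx _ _, fun J => ?_⟩
  obtain ⟨c, hc, h1⟩ := (T J).1.2
  obtain ⟨n, hn⟩ := h1.exists
  by_contra h2
  have h3 : (T J).1.1 ∩ A n = ∅ :=
    Set.eq_empty_of_forall_notMem fun q hq => h2 ⟨q, hT J q hq.1⟩
  have h4 : σ ∅ = 0 := tendsto_nhds_unique (hσ ∅) (tendsto_const_nhds.congr fun m => by
    simp only [hp, Set.indicator_empty, Ex]
    exact (av_const 0 _ _ _).symm)
  rw [h3, h4] at hn
  linarith

variable [NormedSpace ℝ E] [IsScalarTower ℝ K E]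

lemma re_mid (f : StrongDual K E) (u v : E) :
    re (f ((1 / 2 : ℝ) • (u + v))) = (1 / 2 : ℝ) • (re (f u) + re (f v)) := by
  rw [f.map_smul_of_tower, map_add, smul_re, map_add, smul_eq_mul]

lemma tight (F : ℕ → (ℕ → Bool) → E) (hF : IsMart F) (R : ℝ) (hR : ∀ N ω, ‖F N ω‖ ≤ R)
    (hW : ∀ q : ℕ → ℕ × (ℕ → Bool), ∃ z : E, ∀ f : StrongDual K E,
      Tendsto (fun k => f (F (q k).1 (q k).2)) (hyperfilter ℕ) (𝓝 (f z))) (ε : ℝ) (hε : 0 < ε) :
    ∃ t : Set E, t.Finite ∧ ∀ N,
      Ex N (fun ω => Metric.infDist (F N ω) (Submodule.span K t)) ≤ ε := by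
  classical
  by_contra hn
  have hU : (hyperfilter ℕ : Filter ℕ) ≤ atTop := Nat.cofinite_eq_atTop ▸ hyperfilter_le_cofinite
  set t : ℕ → Set E := fun n => ⋃ m ∈ Set.Iic n, Set.range (F m) with ht
  have htf : ∀ n, (t n).Finite := fun n => (Set.finite_Iic n).biUnion fun m _ => (hF.dep m).finite
  have h1 : ∀ n, ∃ N, ε < Ex N fun ω => Metric.infDist (F N ω) (Submodule.span K (t n)) := by
    intro n
    by_contra h2
    exact hn ⟨t n, htf n, fun N => not_lt.1 fun h3 => h2 ⟨N, h3⟩⟩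
  choose N hN using h1
  choose Γ hΓ1 hΓ0 hΓ using fun n z => exists_dual_dist (Submodule.span K (t n)) z
  have hR0 : 0 < R + 1 := by linarith [(norm_nonneg _).trans (hR 0 fun _ => false)]
  obtain ⟨n, hn, hq⟩ := intersect
    (fun n => {q | ε / 2 ≤ re (Γ n (F (N n) q.2) (F q.1 q.2))}) ((R + 1)⁻¹ * (ε / 2))
    (by positivity) fun n => by
      filter_upwards [eventually_ge_atTop (N n)] with m hm
      have h2 := hF.pull hm (fun ω v => re (Γ n (F (N n) ω) v))
        (fun ω ω' hω => by simp only [hF.dep _ ω ω' hω]) fun ω u v => re_mid _ u v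
      simp only [hΓ, ofReal_re] at h2
      have h3 := av_mono (f := fun ω => re (Γ n (F (N n) ω) (F m ω)))
        (g := fun ω => ε / 2 + (R + 1) • Set.indicator
          {q : ℕ × (ℕ → Bool) | ε / 2 ≤ re (Γ n (F (N n) q.2) (F q.1 q.2))} (fun _ => (1 : ℝ))
            (m, ω)) (fun ω => by
          by_cases h4 : ε / 2 ≤ re (Γ n (F (N n) ω) (F m ω))
          · rw [Set.indicator_of_mem (by exact h4), smul_eq_mul, mul_one]
            have h5 := ((le_abs_self _).trans (abs_re_le_norm _)).trans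
              (((Γ n (F (N n) ω)).le_opNorm (F m ω)).trans
                (mul_le_mul (hΓ1 _ _) (hR m ω) (norm_nonneg _) zero_le_one))
            linarith
          · rw [Set.indicator_of_notMem (by exact h4), smul_zero, add_zero]
            exact (not_le.1 h4).le) m 0 fun _ => false
      rw [av_add, av_const, av_smul, smul_eq_mul] at h3
      have h4 := hN n
      rw [← h2] at h4
      rw [inv_mul_le_iff₀ hR0]
      simp only [Ex] at h4 ⊢
      linarith
  choose q hq using hq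
  obtain ⟨z, hz⟩ := hW q
  obtain ⟨l, y, hy, hzy⟩ := exists_close (fun n => Submodule.span K (t n))
    (fun a b hab => Submodule.span_mono (Set.biUnion_subset_biUnion_left (Set.Iic_subset_Iic.2 hab)))
    z (fun Θ hΘ => tendsto_nhds_unique (hz Θ) (tendsto_const_nhds.congr fun k =>
      (hΘ (q k).1 _ (Submodule.subset_span
        (Set.mem_biUnion (Set.mem_Iic.2 le_rfl) ⟨(q k).2, rfl⟩))).symm)) (ε / 2) (by positivity)
  obtain ⟨v, -, hv⟩ := (Ultrafilter.eventually_exists_mem_iff (f := hyperfilter ℕ)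
    (P := fun v k => F (N (n l)) (q k).2 = v) (hF.dep (N (n l))).finite).1
    (Eventually.of_forall fun k => ⟨_, ⟨_, rfl⟩, rfl⟩)
  have h2 : ε / 2 ≤ re (Γ (n l) v z) := by
    refine ge_of_tendsto ((continuous_re.tendsto _).comp (hz _)) ?_
    filter_upwards [hv, (eventually_gt_atTop l).filter_mono hU] with k h3 h4
    have h5 := hq k l h4
    rwa [Set.mem_ofPred_eq, h3] at h5
  have h3 : Γ (n l) v y = 0 := hΓ0 _ _ y (Submodule.span_mono
    (Set.biUnion_subset_biUnion_left (Set.Iic_subset_Iic.2 hn.le_apply)) hy)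
  have h4 := ((le_abs_self _).trans (abs_re_le_norm _)).trans (((Γ (n l) v).le_opNorm (z - y)).trans
    (mul_le_of_le_one_left (norm_nonneg _) (hΓ1 _ _)))
  rw [map_sub, h3, sub_zero] at h4
  linarith

lemma pairing_conv (F : ℕ → (ℕ → Bool) → E) (hF : IsMart F) (R : ℝ) (hR : ∀ N ω, ‖F N ω‖ ≤ R)
    (hW : ∀ q : ℕ → ℕ × (ℕ → Bool), ∃ z : E, ∀ f : StrongDual K E,
      Tendsto (fun k => f (F (q k).1 (q k).2)) (hyperfilter ℕ) (𝓝 (f z)))
    (g : ℕ → (ℕ → Bool) → StrongDual K E) (hg : IsMart g) (D : ℝ) (hD : ∀ N ω, ‖g N ω‖ ≤ D) :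
    ∃ c, Tendsto (fun N => Ex N fun ω => re (g N ω (F N ω))) atTop (𝓝 c) := by
  refine cauchySeq_tendsto_of_complete (Metric.cauchySeq_iff'.2 fun ε hε => ?_)
  have hD0 : 0 ≤ D := (norm_nonneg _).trans (hD 0 fun _ => false)
  set η : ℝ := ε / (6 * D + 2) with hη
  have hη0 : 0 < η := by positivity
  obtain ⟨t, ht, hT⟩ := tight F hF R hR hW η hη0
  obtain ⟨s, hs⟩ := finite_net (K := K) t ht (R + R + η) η hη0
  choose N0 hN0 using fun c : E => (hg.map (fun f => re (f c)) fun u v => by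
    simp [smul_re, mul_add]).cauchy (D * ‖c‖) (fun N ω => (abs_re_le_norm _).trans
      (((g N ω).le_opNorm c).trans (mul_le_mul_of_nonneg_right (hD N ω) (norm_nonneg c))))
    (η / (s.card + 1)) (by positivity)
  refine ⟨s.sup N0, fun n hn => ?_⟩
  have h1 := hF.pull hn (fun ω v => re (g (s.sup N0) ω v))
    (fun ω ω' hω => by simp only [hg.dep _ ω ω' hω]) fun ω u v => re_mid _ u v
  rw [Real.dist_eq, ← h1, Ex, Ex, ← av_sub, ← Ex]
  refine (abs_ex_le (h := fun ω => (2 * D) • Metric.infDist (F n ω) (Submodule.span K t) +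
    (2 * D * (2 * η) + ∑ c ∈ s, |re (g n ω c) - re (g (s.sup N0) ω c)|)) (fun ω => ?_) n).trans_lt ?_
  · obtain ⟨y, hy, h2⟩ := (Metric.infDist_lt_iff (x := F n ω) (s := (Submodule.span K t : Set E))
      ⟨0, Submodule.zero_mem _⟩).1 (lt_add_of_pos_right _ hη0)
    have h3 : Metric.infDist (F n ω) (Submodule.span K t : Set E) ≤ R :=
      (Metric.infDist_le_dist_of_mem (Submodule.zero_mem _)).trans (by simpa using hR n ω)
    rw [dist_eq_norm] at h2
    obtain ⟨c, hc, h4⟩ := hs y hy (by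
      have h5 := norm_sub_norm_le y (F n ω)
      rw [norm_sub_rev] at h5
      linarith [hR n ω])
    have h5 : ‖F n ω - c‖ ≤ Metric.infDist (F n ω) (Submodule.span K t : Set E) + 2 * η := by
      linarith [norm_sub_le_norm_sub_add_norm_sub (F n ω) y c]
    have h6 : |re ((g n ω - g (s.sup N0) ω) (F n ω - c))| ≤
        2 * D * (Metric.infDist (F n ω) (Submodule.span K t : Set E) + 2 * η) :=
      (abs_re_le_norm _).trans ((ContinuousLinearMap.le_opNorm _ _).trans (mul_le_mul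
        ((norm_sub_le _ _).trans (by linarith [hD n ω, hD (s.sup N0) ω])) h5 (norm_nonneg _)
        (by positivity)))
    have h7 := Finset.single_le_sum (f := fun c => |re (g n ω c) - re (g (s.sup N0) ω c)|)
      (fun _ _ => abs_nonneg _) hc
    have h8 : re (g n ω (F n ω)) - re (g (s.sup N0) ω (F n ω)) =
        re ((g n ω - g (s.sup N0) ω) (F n ω - c)) + (re (g n ω c) - re (g (s.sup N0) ω c)) := by
      simp only [sub_apply, map_sub]; ring
    rw [h8, smul_eq_mul]
    refine (abs_add_le _ _).trans ?_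
    linarith
  · have h2 := hT n
    have h3 : ∑ c ∈ s, Ex n (fun ω => |re (g n ω c) - re (g (s.sup N0) ω c)|) ≤
        s.card * (η / (s.card + 1)) := by
      simpa using Finset.sum_le_card_nsmul s _ _ fun c hc =>
        hN0 c _ n n (Finset.le_sup hc) hn le_rfl
    have h4 : (s.card : ℝ) * (η / (s.card + 1)) ≤ η := by
      rw [← mul_div_assoc, div_le_iff₀ (by positivity)]
      nlinarith
    have h5 : η * (6 * D + 2) = ε := by rw [hη]; field_simp
    simp only [Ex] at h2 h3 ⊢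
    rw [av_add, av_add, av_smul, av_const, av_sum, smul_eq_mul]
    nlinarith [mul_le_mul_of_nonneg_left h2 hD0]

end Pool.Agent.Lib.GB86
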