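import Pool.Agent.Lib.GB86.DefsW
import Pool.Agent.Lib.GB86.Frag
import Pool.Agent.Lib.GB86.Indep

/-! The weak Calkin algebra of a non-reflexive space whose operator algebra is Grothendieck. -/

open Filter Topology RCLike

namespace Pool.Agent.Lib.GB86

variable {K : Type} [RCLike K] {E : Type} [NormedAddCommGroup E] [NormedSpace K E]

lemma eval_mid (x : E) (u v : StrongDual K E) :
    ((1 / 2 : ℝ) • (u + v)) x = (1 / 2 : ℝ) • (u x + v x) := rfl

lemma exists_mart (γ : ℕ → (ℕ → Bool) → StrongDual K E) (hγ : ∀ n, Dep n (γ n)) (D : ℝ)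
    (hD : ∀ n ω, ‖γ n ω‖ ≤ D) : ∃ G : ℕ → (ℕ → Bool) → StrongDual K E, IsMart G ∧
      (∀ N ω, ‖G N ω‖ ≤ D) ∧ ∀ N ω x, Tendsto (fun n => av (fun ω' => γ n ω' x) (n - N) N ω)
        (hyperfilter ℕ) (𝓝 (G N ω x)) := by
  have hU : (hyperfilter ℕ : Filter ℕ) ≤ atTop := Nat.cofinite_eq_atTop ▸ hyperfilter_le_cofinite
  choose G hG hGl using fun N ω => exists_ulim (hyperfilter ℕ) (fun n => av (γ n) (n - N) N ω) D
    fun n => mem_closedBall_zero_iff.1 (av_mem (convex_closedBall 0 D) _ _ _ fun ω' _ =>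
      mem_closedBall_zero_iff.2 (hD n ω'))
  refine ⟨G, ⟨fun N ω ω' hω => ?_, fun N ω => ?_⟩, hG, fun N ω x => (hGl N ω x).congr fun n =>
    av_map (fun u : StrongDual K E => u x) (eval_mid x) _ _ _ _⟩
  · ext x
    refine tendsto_nhds_unique (hGl N ω x) ((hGl N ω' x).congr' ?_)
    filter_upwards [(eventually_ge_atTop N).filter_mono hU] with n hn
    rw [av_dep (n - N) N (by rw [Nat.add_sub_cancel' hn]; exact hγ n) ω ω' hω]
  · ext x
    refine tendsto_nhds_unique (hGl N ω x) ((((hGl (N + 1) (Function.update ω N false) x).add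
      (hGl (N + 1) (Function.update ω N true) x)).const_smul (1 / 2 : ℝ)).congr' ?_)
    filter_upwards [(eventually_gt_atTop N).filter_mono hU] with n hn
    rw [show n - N = n - (N + 1) + 1 by omega]
    rfl

/-- The sign attached to a bit. -/
noncomputable def sb (K : Type) [RCLike K] (c : Bool) : K := if c then 1 else -1

lemma mart_pattern (a : ℕ → (ℕ → Bool) → K) (m : ℕ) (η : ℝ)
    (ha : ∀ n ω, m < n → ‖a n ω - sb K (ω m)‖ ≤ η) (N : ℕ) (ω : ℕ → Bool) (c : K)
    (hc : Tendsto (fun n => av (a n) (n - N) N ω) (hyperfilter ℕ) (𝓝 c)) :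
    (m < N → ‖c - sb K (ω m)‖ ≤ η) ∧ (N ≤ m → ‖c‖ ≤ η) := by
  have hU : (hyperfilter ℕ : Filter ℕ) ≤ atTop := Nat.cofinite_eq_atTop ▸ hyperfilter_le_cofinite
  refine ⟨fun h => le_of_tendsto (hc.sub_const _).norm ?_, fun h => le_of_tendsto hc.norm ?_⟩
  · filter_upwards [(eventually_gt_atTop m).filter_mono hU] with n hn
    exact mem_closedBall_iff_norm.1 (av_mem (convex_closedBall (sb K (ω m)) η) _ _ _ fun ω' h' =>
      mem_closedBall_iff_norm.2 (by rw [← h' m h]; exact ha n ω' hn))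
  · filter_upwards [(eventually_gt_atTop m).filter_mono hU] with n hn
    have h1 := av_sub (a n) (fun ω' => sb K (ω' m)) (n - N) N ω
    rw [av_coord (sb K) (by simp [sb]) m _ _ _ h (by omega), sub_zero] at h1
    rw [← h1]
    exact mem_closedBall_zero_iff.1 (av_mem (convex_closedBall 0 η) _ _ _ fun ω' _ =>
      mem_closedBall_zero_iff.2 (ha n ω' hn))

lemma shatter (v : ℕ → StrongDual K E) (C : ℝ) (hv : ∀ j, ‖v j‖ ≤ C)
    (hno : ∀ φ : ℕ → ℕ, StrictMono φ → ¬ ∀ x, ∃ c, Tendsto (fun n => v (φ n) x) atTop (𝓝 c)) :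
    ∃ (n : ℕ → ℕ) (D : ℝ) (e : ℕ → (ℕ → Bool) → E), (∀ N, Dep N (e N)) ∧ (∀ N ω, ‖e N ω‖ ≤ D) ∧
      ∀ m N ω, m < N → ‖v (n m) (e N ω) - sb K (ω m)‖ ≤ 1 / 5 := by
  rcases rosenthal_disc (B := {x : E // ‖x‖ ≤ 1}) (fun j x => v j x.1) (fun x => ⟨C, fun j =>
    ((v j).le_opNorm _).trans ((mul_le_of_le_one_right (norm_nonneg _) x.2).trans (hv j))⟩) with
    ⟨φ, hφ, hc⟩ | ⟨z, hz, n, -, hn⟩
  · refine absurd (fun x => ?_) (hno φ hφ)
    have hp : 0 < ‖x‖ + 1 := by positivity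
    obtain ⟨c, hc⟩ := hc ⟨(((‖x‖ + 1)⁻¹ : ℝ) : K) • x, by
      rw [norm_smul, norm_ofReal, abs_of_pos (inv_pos.2 hp), inv_mul_le_iff₀ hp]; linarith⟩
    refine ⟨_, (hc.const_mul (((‖x‖ + 1 : ℝ)) : K)).congr fun n => ?_⟩
    rw [map_smul, smul_eq_mul, ← mul_assoc, ← ofReal_mul, mul_inv_cancel₀ hp.ne', ofReal_one,
      one_mul]
  · choose x hx using hn
    have hd : z true - z false ≠ 0 := sub_ne_zero.2 hz
    have hd' : 0 < ‖z true - z false‖ := norm_pos_iff.2 hd
    refine ⟨n, ‖z true - z false‖⁻¹ * 2, fun N ω => (z true - z false)⁻¹ •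
      ((x N fun m => if m < N then ω m else false).1 -
        (x N fun m => if m < N then !ω m else false).1), fun N ω ω' hω => ?_, fun N ω => ?_,
      fun m N ω hm => ?_⟩
    · have h1 : (fun m => if m < N then ω m else false) = fun m => if m < N then ω' m else false :=
        funext fun m => by split_ifs with h; exacts [hω m h, rfl]
      have h2 : (fun m => if m < N then !ω m else false) =
          fun m => if m < N then !ω' m else false :=
        funext fun m => by split_ifs with h; exacts [by rw [hω m h], rfl]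
      simp only [h1, h2]
    · rw [norm_smul, norm_inv]
      refine mul_le_mul_of_nonneg_left ((norm_sub_le _ _).trans ?_) (by positivity)
      linarith [(x N fun m => if m < N then ω m else false).2,
        (x N fun m => if m < N then !ω m else false).2]
    · have h1 := hx N (fun m => if m < N then ω m else false) m hm
      have h2 := hx N (fun m => if m < N then !ω m else false) m hm
      simp only [if_pos hm] at h1 h2
      have h3 : sb K (ω m) = (z true - z false)⁻¹ * (z (ω m) - z (!ω m)) := by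
        cases ω m
        · simp only [sb, Bool.false_eq_true, if_false, Bool.not_false]
          field_simp
          ring
        · simp only [sb, if_true, Bool.not_true]
          field_simp
      rw [map_smul, map_sub, smul_eq_mul, h3, ← mul_sub, norm_mul, norm_inv, inv_mul_le_iff₀ hd',
        sub_sub_sub_comm]
      linarith [norm_sub_le (v (n m) (x N fun m => if m < N then ω m else false).1 - z (ω m))
        (v (n m) (x N fun m => if m < N then !ω m else false).1 - z (!ω m))]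

lemma conv_of_re (a : ℕ → K) (h1 : ∃ c, Tendsto (fun n => re (a n)) atTop (𝓝 c))
    (h2 : ∃ c, Tendsto (fun n => re (I * a n)) atTop (𝓝 c)) : ∃ c, Tendsto a atTop (𝓝 c) := by
  obtain ⟨c, hc⟩ := h1
  obtain ⟨d, hd⟩ := h2
  refine ⟨_, (((continuous_ofReal.tendsto c).comp hc).add
    (((continuous_ofReal.tendsto (-d)).comp hd.neg).mul_const (I : K))).congr fun n => ?_⟩
  simp only [Function.comp, I_mul_re, neg_neg, re_add_im]

variable {X : Type} [NormedAddCommGroup X] [NormedSpace K X]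

lemma conv_of_weaklyCompact [NormedSpace ℝ X] [IsScalarTower ℝ K X] (e : ℕ → (ℕ → Bool) → X)
    (D : ℝ) (he : ∀ n ω, ‖e n ω‖ ≤ D) (ξ : ℕ → (ℕ → Bool) → StrongDual K (StrongDual K X))
    (hξ : IsMart ξ) (hξD : ∀ N ω, ‖ξ N ω‖ ≤ D)
    (hl : ∀ N ω f, Tendsto (fun n => av (fun ω' => f (e n ω')) (n - N) N ω) (hyperfilter ℕ)
      (𝓝 (ξ N ω f))) (g : ℕ → (ℕ → Bool) → StrongDual K X) (hg : IsMart g) (D' : ℝ)
    (hgD : ∀ N ω, ‖g N ω‖ ≤ D') (T : X →L[K] X) (hT : T ∈ weaklyCompact K X) :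
    ∃ c, Tendsto (fun N => Ex N fun ω => re (ξ N ω ((g N ω).comp T))) atTop (𝓝 c) := by
  have hT' : IsCompactOperator ((toWeakSpace K X).toLinearMap.comp T.toLinearMap) := hT
  obtain ⟨A, hA, hTA⟩ := hT'.image_closedBall_subset_compact D
  have hlim : ∀ p : ℕ → X, (∀ n, toWeakSpace K X (p n) ∈ A) → ∃ z : X, toWeakSpace K X z ∈ A ∧
      ∀ f : StrongDual K X, Tendsto (fun n => f (p n)) (hyperfilter ℕ) (𝓝 (f z)) := by
    intro p hp
    obtain ⟨z, hz, h1⟩ := hA.ultrafilter_le_nhds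
      ((hyperfilter ℕ).map fun n => toWeakSpace K X (p n)) (by
        rw [Ultrafilter.coe_map, le_principal_iff, mem_map]
        exact univ_mem' hp)
    have h2 : Tendsto (fun n => toWeakSpace K X (p n)) (hyperfilter ℕ) (𝓝 z) := h1
    exact ⟨(toWeakSpace K X).symm z, hz, fun f =>
      ((WeakBilin.eval_continuous (topDualPairing K X).flip f).tendsto z).comp h2⟩
  have hex : ∀ N ω, ∃ z : X, toWeakSpace K X z ∈ A ∧ ∀ f : StrongDual K X,
      ξ N ω (f.comp T) = f z := by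
    intro N ω
    obtain ⟨z, hz, h1⟩ := hlim (fun n => T (av (e n) (n - N) N ω)) fun n => hTA ⟨_,
      av_mem (convex_closedBall 0 D) _ _ _ fun ω' _ => mem_closedBall_zero_iff.2 (he n ω'), rfl⟩
    refine ⟨z, hz, fun f => tendsto_nhds_unique (hl N ω _) ((h1 f).congr fun n => ?_)⟩
    exact av_map (f.comp T) (fun u v => by rw [(f.comp T).map_smul_of_tower, map_add]) _ _ _ _
  choose F hFA hF using hex
  have hD : 0 ≤ D := (norm_nonneg _).trans (he 0 fun _ => false)
  simp only [hF]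
  refine pairing_conv F ⟨fun N ω ω' hω => ?_, fun N ω => ?_⟩ (D * ‖T‖) (fun N ω => ?_)
    (fun q => ?_) g hg D' hgD
  · exact (SeparatingDual.eq_iff_forall_dual_eq (R := K)).2 fun f => by rw [← hF, ← hF, hξ.dep N ω ω' hω]
  · refine (SeparatingDual.eq_iff_forall_dual_eq (R := K)).2 fun f => ?_
    rw [f.map_smul_of_tower, map_add, ← hF, ← hF, ← hF, hξ.mid N ω]
    rfl
  · refine NormedSpace.norm_le_dual_bound K _ (by positivity) fun f => ?_
    rw [← hF]
    calc ‖ξ N ω (f.comp T)‖ ≤ ‖ξ N ω‖ * ‖f.comp T‖ := (ξ N ω).le_opNorm _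
      _ ≤ D * (‖f‖ * ‖T‖) := by gcongr; exacts [hξD N ω, f.opNorm_comp_le T]
      _ = _ := by ring
  · obtain ⟨z, -, hz⟩ := hlim (fun k => F (q k).1 (q k).2) fun k => hFA _ _
    exact ⟨z, hz⟩

lemma far_helly {Z : Type} [NormedAddCommGroup Z] [NormedSpace K Z] [CompleteSpace Z]
    (T : Z →L[K] StrongDual K E) (hT : ∀ x, ‖T x‖ = ‖x‖) (η : StrongDual K E)
    (h : η ∉ Set.range T) : ∃ d : ℝ, 0 < d ∧ ∀ s : Finset Z,
      ∃ f : E, ‖f‖ ≤ 1 ∧ 3 * d / 4 ≤ re (η f) ∧ ∀ x ∈ s, re (T x f) ≤ d / 8 := by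
  classical
  obtain ⟨G, hG, hG0, hGη⟩ := exists_dual_dist (E := StrongDual K E)
    (LinearMap.range T.toLinearMap) η
  have hd := ((isClosed_range_li T hT).notMem_iff_infDist_pos ⟨_, 0, rfl⟩).1 h
  refine ⟨_, hd, fun s => ?_⟩
  obtain ⟨f, hf, hf'⟩ := helly G hG (insert η (s.image T)) _ (div_pos hd (by norm_num : (0 : ℝ) < 8))
  have h1 := (abs_lt.1 (hf' η (Finset.mem_insert_self _ _))).1
  rw [hGη, ofReal_re] at h1
  have h3 : Metric.infDist η ((LinearMap.range T.toLinearMap : Submodule K _) : Set _) =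
    Metric.infDist η (Set.range T) := rfl
  refine ⟨f, hf, by linarith, fun x hx => ?_⟩
  have h2 := (abs_lt.1 (hf' _ (Finset.mem_insert_of_mem (Finset.mem_image_of_mem T hx)))).2
  rw [hG0 (T x) ⟨x, rfl⟩, map_zero] at h2
  linarith

lemma isCompact_dual_ball : IsCompact {ξ : WeakDual K E | ‖WeakDual.toStrongDual ξ‖ ≤ 1} := by
  have h := WeakDual.isCompact_closedBall (𝕜 := K) (E := E) 0 1
  have h1 : WeakDual.toStrongDual ⁻¹' Metric.closedBall (0 : StrongDual K E) 1 =
      {ξ : WeakDual K E | ‖WeakDual.toStrongDual ξ‖ ≤ 1} := by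
    ext ξ; simp
  rwa [h1] at h

lemma exists_not_range (A : X →L[K] X) (hA : A ∉ weaklyCompact K X) :
    ∃ ξ : StrongDual K (StrongDual K X), ‖ξ‖ ≤ 1 ∧
      ¬ ∃ z : X, ∀ f : StrongDual K X, f z = ξ (f.comp A) := by
  by_contra h
  have h1 : ∀ ξ : {ξ : WeakDual K (StrongDual K X) | ‖WeakDual.toStrongDual ξ‖ ≤ 1},
      ∃ z : WeakSpace K X,
      ∀ f : StrongDual K X, f ((toWeakSpace K X).symm z) = ξ.1 (f.comp A) := by
    intro ξ
    by_contra h2
    exact h ⟨WeakDual.toStrongDual ξ.1, ξ.2,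
      fun ⟨z, hz⟩ => h2 ⟨toWeakSpace K X z, hz⟩⟩
  choose ρ hρ using h1
  have hc : Continuous ρ := WeakBilin.continuous_of_continuous_eval _ fun f =>
    ((WeakDual.eval_continuous (f.comp A)).comp continuous_subtype_val).congr
      fun ξ => (hρ ξ f).symm
  have : CompactSpace {ξ : WeakDual K (StrongDual K X) | ‖WeakDual.toStrongDual ξ‖ ≤ 1} :=
    isCompact_iff_compactSpace.1 (isCompact_dual_ball (K := K) (E := StrongDual K X))
  refine hA ⟨_, isCompact_range hc, mem_of_superset (Metric.closedBall_mem_nhds 0 one_pos)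
    fun x hx => ⟨⟨StrongDual.toWeakDual (NormedSpace.inclusionInDoubleDual K X x),
      (NormedSpace.double_dual_bound K X x).trans (mem_closedBall_zero_iff.1 hx)⟩, ?_⟩⟩
  refine (toWeakSpace K X).symm.injective ((SeparatingDual.eq_iff_forall_dual_eq (R := K)).2
    fun f => ?_)
  rw [hρ]
  rfl

lemma james_op [CompleteSpace X] (A : X →L[K] X) (hA : A ∉ weaklyCompact K X) :
    ∃ (d : ℝ) (x : ℕ → X) (f : ℕ → StrongDual K X), 0 < d ∧ (∀ i, ‖x i‖ ≤ 1) ∧ (∀ j, ‖f j‖ ≤ 1) ∧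
      (∀ i j, j ≤ i → d / 2 ≤ re (f j (A (x i)))) ∧
      ∀ i j, i < j → re (f j (A (x i))) ≤ d / 8 := by
  classical
  obtain ⟨ξ, hξ, hn⟩ := exists_not_range A hA
  obtain ⟨d, hd, hfar⟩ : ∃ d : ℝ, 0 < d ∧ ∀ s : Finset X, ∃ f : StrongDual K X, ‖f‖ ≤ 1 ∧
      3 * d / 4 ≤ re (ξ (f.comp A)) ∧ ∀ x ∈ s, re (f x) ≤ d / 8 :=
    far_helly (K := K) (E := StrongDual K X) (Z := X) (NormedSpace.inclusionInDoubleDual K X)
      (NormedSpace.inclusionInDoubleDualLi (E := X) K).norm_map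
      (ξ.comp ((ContinuousLinearMap.compL K X X K).flip A))
      fun ⟨z, hz⟩ => hn ⟨z, fun f => DFunLike.congr_fun hz f⟩
  obtain ⟨p, hp, hr⟩ := exists_seq_of_forall_finset_exists
    (fun p : X × StrongDual K X => ‖p.1‖ ≤ 1 ∧ ‖p.2‖ ≤ 1 ∧ d / 2 ≤ re (p.2 (A p.1)) ∧
      3 * d / 4 ≤ re (ξ (p.2.comp A)))
    (fun p q => d / 2 ≤ re (p.2 (A q.1)) ∧ re (q.2 (A p.1)) ≤ d / 8) (by
      intro s hs
      obtain ⟨f, hf, h1, hf'⟩ := hfar (s.image fun p => A p.1)
      obtain ⟨x, hx, hx'⟩ := helly ξ hξ (insert (f.comp A) (s.image fun p => p.2.comp A)) (d / 4)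
        (by positivity)
      have h2 := (abs_lt.1 (hx' _ (Finset.mem_insert_self _ _))).1
      rw [ContinuousLinearMap.comp_apply] at h2
      refine ⟨(x, f), ⟨hx, hf, by simp only; linarith, h1⟩, fun p hp => ?_⟩
      have h3 := (abs_lt.1 (hx' _ (Finset.mem_insert_of_mem
        (Finset.mem_image_of_mem (fun p : X × StrongDual K X => p.2.comp A) hp)))).1
      rw [ContinuousLinearMap.comp_apply] at h3
      have h5 := (hs p hp).2.2.2
      exact ⟨by simp only; linarith,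
        hf' _ (Finset.mem_image_of_mem (fun p : X × StrongDual K X => A p.1) hp)⟩)
  refine ⟨d, fun i => (p i).1, fun j => (p j).2, hd, fun i => (hp i).1, fun j => (hp j).2.1, ?_,
    fun i j hij => (hr i j hij).2⟩
  intro i j hji
  rcases hji.eq_or_lt with rfl | hlt
  · exact (hp j).2.2.1
  · exact (hr j i hlt).1

theorem not_weaklyCompact_mul [CompleteSpace X] (hE : IsGrothendieck K (X →L[K] X))
    (A B : X →L[K] X) (hA : A ∉ weaklyCompact K X) (hB : B ∉ weaklyCompact K X) :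
    ¬ IsCompactOperator fun T : X →L[K] X => toWeakSpace K ((X →L[K] X) ⧸ weaklyCompact K X)
      ((weaklyCompact K X).mkQ (A.comp (T.comp B))) := by
  intro hM
  let _ : NormedSpace ℝ X := NormedSpace.restrictScalars ℝ K X
  have : IsScalarTower ℝ K X := RestrictScalars.isScalarTower ℝ K X
  set L : (X →L[K] X) →L[K] (X →L[K] X) := (ContinuousLinearMap.compL K X X X A).comp
    ((ContinuousLinearMap.compL K X X X).flip B) with hL
  have hW := repr_of_weaklyCompact L (weaklyCompact K X) hM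
  obtain ⟨d, x, f, hd, hx, hf, h1, h0⟩ := james_op B hB
  obtain ⟨d', x', f', hd', hx', hf', h1', h0'⟩ := james_op A hA
  have hw : x 0 ≠ 0 := fun h => by
    have h2 := h1 0 0 le_rfl
    rw [h, map_zero, map_zero, map_zero] at h2
    linarith
  obtain ⟨y0, hy0⟩ := SeparatingDual.exists_eq_one (R := K) hw
  obtain ⟨n1, D1, e, he, heD, hep⟩ := shatter (fun j => (f j).comp B) ‖B‖
    (fun j => ((f j).opNorm_comp_le B).trans (mul_le_of_le_one_left (norm_nonneg _) (hf j)))
    fun φ hφ hc =>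
    not_conv hE (fun j => ((f (φ j)).comp B).comp (ContinuousLinearMap.apply K X (x 0)))
      (fun i => y0.smulRight (x (φ i))) ‖y0‖ (d / 8) (d / 2) (by linarith)
      (fun i => by
        rw [ContinuousLinearMap.norm_smulRight_apply]
        exact mul_le_of_le_one_right (norm_nonneg _) (hx _))
      (fun i j hij => by simpa [hy0] using h1 _ _ (hφ.monotone hij))
      (fun i j hij => by simpa [hy0] using h0 _ _ (hφ hij)) fun T => by
        obtain ⟨c, hc⟩ := hc (T (x 0))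
        exact ⟨_, (continuous_re.tendsto c).comp hc⟩
  obtain ⟨n2, D2, γ, hγ, hγD, hγp⟩ := shatter (E := StrongDual K X)
    (fun j => NormedSpace.inclusionInDoubleDual K X (A (x' j))) ‖A‖
    (fun j => (NormedSpace.double_dual_bound K X _).trans ((A.le_opNorm _).trans
      (mul_le_of_le_one_right (norm_nonneg _) (hx' j)))) fun φ hφ hc =>
    not_conv hE (fun j => -y0.comp (ContinuousLinearMap.apply K X (A (x' (φ j)))))
      (fun i => (f' (φ i + 1)).smulRight (x 0)) ‖x 0‖ (-(d' / 2)) (-(d' / 8)) (by linarith)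
      (fun i => by
        rw [ContinuousLinearMap.norm_smulRight_apply]
        exact mul_le_of_le_one_left (norm_nonneg _) (hf' _))
      (fun i j hij => by simpa [hy0] using h0' _ _ (Nat.lt_succ_of_le (hφ.monotone hij)))
      (fun i j hij => by simpa [hy0] using h1' _ _ (Nat.succ_le_of_lt (hφ hij))) fun T => by
        obtain ⟨c, hc⟩ := hc (y0.comp T)
        exact ⟨_, (continuous_re.tendsto (-c)).comp hc.neg⟩
  obtain ⟨ξ, hξ, hξD, hξl⟩ := exists_mart (E := StrongDual K X)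
    (fun n ω => NormedSpace.inclusionInDoubleDual K X (e n ω))
    (fun n ω ω' hω => by simp only [he n ω ω' hω]) D1
    fun n ω => (NormedSpace.double_dual_bound K X _).trans (heD n ω)
  obtain ⟨g, hg, hgD, hgl⟩ := exists_mart γ hγ D2 hγD
  have hD1 : 0 ≤ D1 := (norm_nonneg _).trans (heD 0 fun _ => false)
  have hD2 : 0 ≤ D2 := (norm_nonneg _).trans (hγD 0 fun _ => false)
  set Φ : ℕ → StrongDual K (X →L[K] X) := fun N => Ex N fun ω =>
    (ξ N ω).comp (ContinuousLinearMap.compL K X X K (g N ω)) with hΦ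
  have hΦr : ∀ N T, re (Φ N T) = Ex N fun ω => re (ξ N ω ((g N ω).comp T)) := fun N T =>
    av_map (fun u : StrongDual K (X →L[K] X) => re (u T)) (fun u v => by
      rw [eval_mid, smul_re, map_add, smul_eq_mul]) _ _ _ _
  have hΦn : ∀ N, ‖Φ N‖ ≤ D1 * D2 := fun N => norm_le_of_re _ _ fun T hT => by
    rw [hΦr]
    refine av_mem (convex_Iic (D1 * D2)) _ _ _ fun ω _ => ?_
    refine ((le_abs_self _).trans (abs_re_le_norm _)).trans (((ξ N ω).le_opNorm _).trans ?_)
    exact mul_le_mul (hξD N ω) (((g N ω).opNorm_comp_le T).trans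
      ((mul_le_of_le_one_right (norm_nonneg _) hT).trans (hgD N ω))) (norm_nonneg _) hD1
  have hcv : ∀ T ∈ weaklyCompact K X, ∃ c, Tendsto (fun N => re (Φ N T)) atTop (𝓝 c) := by
    intro T hT
    simp only [hΦr]
    exact conv_of_weaklyCompact e D1 heD ξ hξ hξD hξl g hg D2 hgD T hT
  obtain ⟨ψ, hψ, hc⟩ := frag L (weaklyCompact K X) hW Φ _ hΦn fun T hT =>
    conv_of_re _ (hcv T hT) (by
      simpa only [map_smul, smul_eq_mul] using hcv _ ((weaklyCompact K X).smul_mem I hT))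
  have hS : ∀ N M, re ((Φ N).comp L ((f (n1 M)).smulRight (x' (n2 M)))) =
      Ex N fun ω => re (g N ω (A (x' (n2 M))) * ξ N ω ((f (n1 M)).comp B)) := by
    intro N M
    rw [ContinuousLinearMap.comp_apply, hΦr]
    congr 1
    funext ω
    rw [← smul_eq_mul, ← map_smul]
    congr 2
    ext z
    simp [hL, mul_comm]
  have hpg : ∀ M N ω, _ := fun M N ω =>
    mart_pattern _ M (1 / 5) (fun n ω hn => hγp M n ω hn) N ω _ (hgl N ω (A (x' (n2 M))))
  have hpξ : ∀ M N ω, _ := fun M N ω =>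
    mart_pattern _ M (1 / 5) (fun n ω hn => hep M n ω hn) N ω _ (hξl N ω ((f (n1 M)).comp B))
  refine not_conv hE (fun j => -(Φ (ψ j)).comp L)
    (fun i => (f (n1 (ψ i))).smulRight (x' (n2 (ψ i)))) 1
    (-(1 / 2)) (-(1 / 8)) (by norm_num) (fun i => ?_) (fun i j hij => ?_) (fun i j hij => ?_)
    fun T => ?_
  · rw [ContinuousLinearMap.norm_smulRight_apply]
    exact mul_le_one₀ (hf _) (norm_nonneg _) (hx' _)
  · rw [neg_apply, map_neg, neg_le_neg_iff, hS]
    refine av_mem (convex_Iic (1 / 8 : ℝ)) _ _ _ fun ω _ => ?_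
    refine ((le_abs_self _).trans (abs_re_le_norm _)).trans ?_
    rw [norm_mul]
    exact (mul_le_mul ((hpg _ _ ω).2 (hψ.monotone hij)) ((hpξ _ _ ω).2 (hψ.monotone hij))
      (norm_nonneg _) (by norm_num)).trans (by norm_num)
  · rw [neg_apply, map_neg, neg_le_neg_iff, hS]
    refine av_mem (convex_Ici (1 / 2 : ℝ)) _ _ _ fun ω _ => ?_
    have h2 := (hpg _ _ ω).1 (hψ hij)
    have h3 := (hpξ _ _ ω).1 (hψ hij)
    generalize g (ψ j) ω (A (x' (n2 (ψ i)))) = a at h2 ⊢
    generalize ξ (ψ j) ω ((f (n1 (ψ i))).comp B) = c at h3 ⊢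
    have h4 : sb K (ω (ψ i)) * sb K (ω (ψ i)) = 1 := by cases ω (ψ i) <;> simp [sb]
    have h5 : ‖sb K (ω (ψ i))‖ = 1 := by cases ω (ψ i) <;> simp [sb]
    generalize sb K (ω (ψ i)) = s at h2 h3 h4 h5
    have h6 : a * c - 1 = (a - s) * (c - s) + s * (a - s) + s * (c - s) := by
      rw [← h4]; ring
    have h7 : ‖a * c - 1‖ ≤ 1 / 5 * (1 / 5) + 1 / 5 + 1 / 5 := by
      rw [h6]
      refine norm_add₃_le.trans ?_
      rw [norm_mul, norm_mul, norm_mul, h5, one_mul, one_mul]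
      gcongr
    have h8 := (abs_le.1 ((abs_re_le_norm _).trans h7)).1
    rw [map_sub, one_re] at h8
    show 1 / 2 ≤ re (a * c)
    linarith
  · obtain ⟨c, hc⟩ := hc T
    exact ⟨_, (continuous_re.tendsto (-c)).comp hc.neg⟩

end Pool.Agent.Lib.GB86
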